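import Pool.Agent.Y318.HN.Expo
import Pool.Agent.Helper179.KSLemmas

/-!
# All invariant measures have zero entropy and positive exponents
-/

set_option autoImplicit false

open Set Filter Topology MeasureTheory Function Pool.Agent.Helper179.KS
open scoped ContDiff ENNReal

namespace Pool.Agent.Y318.HN

noncomputable section

lemma iterate_fixed' {X : Type*} {f : X → X} {x : X} (h : f x = x) (n : ℕ) : f^[n] x = x := by
  induction n with
  | zero => rfl
  | succ n ih => rw [iterate_succ_apply, h, ih]

lemma ks_fixed {X : Type*} [MeasurableSpace X] {f : X → X} {η : Measure X} [IsProbabilityMeasure η]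
    (h : ∀ᵐ x ∂η, f x = x) : ksEntropy η f ≤ ((0 : ℝ) : EReal) := by
  rw [ksEntropy_le_iff]
  intro k P hP
  unfold partitionEntropy
  rw [limsup_coe_le_iff]
  intro ε hε
  have hb : ∀ n : ℕ, shannonEntropy η (itinerary f P n) ≤ k := by
    intro n
    have h1 : itinerary f P n =ᵐ[η] fun x _ => P x := by
      filter_upwards [h] with x hx
      funext j
      show P (f^[j] x) = P x
      rw [iterate_fixed' hx]
    have hcongr : shannonEntropy η (itinerary f P n) = shannonEntropy η (fun x (_ : Fin n) => P x) := by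
      unfold shannonEntropy
      apply Finset.sum_congr rfl
      intro w _
      congr 1
      apply measureReal_congr
      filter_upwards [h1] with x hx
      have : (itinerary f P n x = w) = ((fun (_ : Fin n) => P x) = w) := by rw [hx]
      exact this
    rw [hcongr]
    unfold shannonEntropy
    classical
    have h2 : ∀ w : Fin n → Fin k, w ∉ (Finset.univ.image fun (a : Fin k) (_ : Fin n) => a) →
        Real.negMulLog (η.real ((fun x (_ : Fin n) => P x) ⁻¹' {w})) = 0 := by
      intro w hw
      have : (fun x (_ : Fin n) => P x) ⁻¹' {w} = ∅ := by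
        ext x
        simp only [mem_preimage, mem_singleton_iff, mem_empty_iff_false, iff_false]
        intro hx
        apply hw
        rw [Finset.mem_image]
        exact ⟨P x, Finset.mem_univ _, hx⟩
      rw [this]
      simp
    rw [← Finset.sum_subset (Finset.subset_univ
      (Finset.univ.image fun (a : Fin k) (_ : Fin n) => a)) (fun w _ hw => h2 w hw)]
    refine (Finset.sum_le_card_nsmul _ _ 1 (fun w _ => ?_)).trans ?_
    · set p := η.real ((fun x (_ : Fin n) => P x) ⁻¹' {w}) with hp
      have hp0 : 0 ≤ p := measureReal_nonneg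
      have hp1 : p ≤ 1 := measureReal_le_one
      rcases hp0.eq_or_lt with h0 | h0
      · rw [← h0]; simp
      · unfold Real.negMulLog
        have h3 := Real.log_le_sub_one_of_pos (inv_pos.mpr h0)
        rw [Real.log_inv] at h3
        have h4 : p * (-Real.log p) ≤ p * (p⁻¹ - 1) := mul_le_mul_of_nonneg_left h3 hp0
        rw [mul_sub, mul_inv_cancel₀ h0.ne'] at h4
        linarith
    · rw [nsmul_eq_mul, mul_one]
      have := Finset.card_image_le (s := (Finset.univ : Finset (Fin k)))
        (f := fun (a : Fin k) (_ : Fin n) => a)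
      rw [Finset.card_univ, Fintype.card_fin] at this
      exact_mod_cast this
  have h3 : Tendsto (fun n : ℕ => (k : ℝ) / (n : ℝ)) atTop (𝓝 0) :=
    tendsto_const_div_atTop_nhds_zero_nat _
  filter_upwards [h3.eventually_lt_const hε, eventually_gt_atTop 0] with n hn hn0
  have hn' : (0 : ℝ) < n := by exact_mod_cast hn0
  have h4 : shannonEntropy η (itinerary f P n) / n ≤ k / n := by
    gcongr
    exact hb n
  linarith

/-- squared sines, zero exactly at the saddles among the fixed points -/
def ssq (z : Plane) : ℝ := S z ^ 2 + T z ^ 2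

lemma ssq_lat (z : Plane) (k : ℤ × ℤ) : ssq (z + lat k) = ssq z := by
  unfold ssq; rw [S_lat, T_lat]

lemma ssq_cont : Continuous ssq :=
  (S_contDiff.continuous.pow 2).add (T_contDiff.continuous.pow 2)

/-- the function `χ₊` -/
def chi0 (x : Torus) : ℝ := indicator {x | dn ssq x = 0} (fun _ => lam - 2 * kap) x + 2 * kap

lemma chi0_meas : Measurable chi0 := by
  have : MeasurableSet {x : Torus | dn ssq x = 0} :=
    (isClosed_singleton.preimage (dn_continuous ssq_lat ssq_cont)).measurableSet
  exact (measurable_const.indicator this).add_const _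

lemma chi0_sad {z : Plane} (h : IsSad z) : chi0 (proj z) = lam := by
  unfold chi0
  have : proj z ∈ {x : Torus | dn ssq x = 0} := by
    show dn ssq (proj z) = 0
    rw [dn_proj ssq_lat]
    unfold ssq
    rw [h.1, h.2]; ring
  rw [indicator_of_mem this]
  ring

lemma chi0_src {z : Plane} (h : IsSrc z) : chi0 (proj z) = 2 * kap := by
  unfold chi0
  have : proj z ∉ {x : Torus | dn ssq x = 0} := by
    show ¬ dn ssq (proj z) = 0
    rw [dn_proj ssq_lat]
    unfold ssq
    have h1 := AS z
    have h2 := BT z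
    rw [h.1] at h1
    rw [h.2] at h2
    intro h
    nlinarith
  rw [indicator_of_notMem this]
  ring

lemma two_kap_le_lam : 2 * kap ≤ lam := by
  unfold kap lam pp
  have : Real.log (26 / 25) ≤ Real.log (11 / 9) := Real.log_le_log (by norm_num) (by norm_num)
  linarith

lemma chi0_ge (x : Torus) : 2 * kap ≤ chi0 x := by
  unfold chi0
  have h := two_kap_le_lam
  by_cases hx : x ∈ {x : Torus | dn ssq x = 0}
  · rw [indicator_of_mem hx]; linarith
  · rw [indicator_of_notMem hx]; linarith

lemma chi0_le (x : Torus) : chi0 x ≤ lam := by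
  unfold chi0
  have h := two_kap_le_lam
  by_cases hx : x ∈ {x : Torus | dn ssq x = 0}
  · rw [indicator_of_mem hx]; linarith
  · rw [indicator_of_notMem hx]; linarith

theorem chi_ae {ρ : Measure Torus} (hρ : IsInvariant ft ρ) : IsChiPlus F0 F0H.symm ρ chi0 := by
  filter_upwards [ae_fixed hρ] with x hx z hz
  rcases hx z hz with h | h
  · obtain ⟨s, V, hs⟩ := split_sad h
    refine ⟨s, V, hs, ?_⟩
    rw [chi_sad h hs, ← hz, chi0_sad h]
  · obtain ⟨s, V, hs⟩ := split_src h
    refine ⟨s, V, hs, ?_⟩
    rw [chi_src h hs, ← hz, chi0_src h]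

theorem chi_unique {ρ : Measure Torus} (hρ : IsInvariant ft ρ) {χ : Torus → ℝ}
    (hχ : IsChiPlus F0 F0H.symm ρ χ) : χ =ᵐ[ρ] chi0 := by
  filter_upwards [ae_fixed hρ, hχ] with x hx1 hx2
  obtain ⟨z, rfl⟩ := proj_surjective x
  obtain ⟨s, V, hs, he⟩ := hx2 z rfl
  rw [he]
  rcases hx1 z rfl with h | h
  · rw [chi_sad h hs, chi0_sad h]
  · rw [chi_src h hs, chi0_src h]

theorem main {ρ : Measure Torus} (hρ : IsInvariant ft ρ) :
    (∃ χ : Torus → ℝ, Integrable χ ρ ∧ IsChiPlus F0 F0H.symm ρ χ) ∧
    ∀ χ : Torus → ℝ, IsChiPlus F0 F0H.symm ρ χ →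
      ksEntropy ρ ft ≤ ((∫ x, χ x ∂ρ - 2 * kap : ℝ) : EReal) := by
  have := hρ.prob
  have hint : Integrable chi0 ρ := by
    refine Integrable.of_bound chi0_meas.aestronglyMeasurable lam (Eventually.of_forall fun x => ?_)
    rw [Real.norm_eq_abs, abs_le]
    have h1 := chi0_ge x
    have h2 := chi0_le x
    have h3 := kap_pos
    have h4 := lam_pos
    constructor <;> linarith
  refine ⟨⟨chi0, hint, chi_ae hρ⟩, fun χ hχ => ?_⟩
  rw [integral_congr_ae (chi_unique hρ hχ)]
  have h1 : 2 * kap ≤ ∫ x, chi0 x ∂ρ := by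
    have h2 : ∫ _x, 2 * kap ∂ρ ≤ ∫ x, chi0 x ∂ρ :=
      integral_mono (integrable_const _) hint (fun x => chi0_ge x)
    simpa using h2
  have h3 : ∀ᵐ x ∂ρ, ft x = x := by
    filter_upwards [ae_fixed hρ] with x hx
    obtain ⟨z, rfl⟩ := proj_surjective x
    rw [ft_proj, F0_fixed (hx z rfl)]
  refine (ks_fixed h3).trans ?_
  exact_mod_cast (by linarith : (0 : ℝ) ≤ ∫ x, chi0 x ∂ρ - 2 * kap)

end

end Pool.Agent.Y318.HN
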