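import Mathlib
import Pool.Agent.Helper179.KSDefs

/-!
# Entropy and Lyapunov exponents for diffeomorphisms of the two-torus: definitions
-/

set_option autoImplicit false

open Set Filter Topology MeasureTheory Function
open scoped ContDiff DirectSum

namespace Pool.Agent.Y318.HN

/-- The two-torus `ℝ²/ℤ²`. -/
abbrev Torus : Type := UnitAddCircle × UnitAddCircle

/-- The universal cover of the two-torus, which is also its tangent space at every point. -/
abbrev Plane : Type := ℝ × ℝ

/-- The covering map `ℝ² → ℝ²/ℤ²`. -/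
def proj (z : Plane) : Torus := ((z.1 : UnitAddCircle), (z.2 : UnitAddCircle))

/-- `f` is a real-analytic diffeomorphism of the torus: `F` and `G` are real-analytic lifts of `f`
and `f⁻¹`. The derivative of `fⁿ` at `proj z` is that of `Fⁿ` at `z`, the derivative of `f⁻ⁿ` at
`proj z` is that of `Gⁿ` at `z`. -/
structure IsAnalyticDiffeo (f : Torus ≃ₜ Torus) (F G : Plane → Plane) : Prop where
  lift : ∀ z, f (proj z) = proj (F z)
  lift_symm : ∀ z, f.symm (proj z) = proj (G z)
  analytic : ContDiff ℝ ω F
  analytic_symm : ContDiff ℝ ω G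

/-- `ρ` is an `f`-invariant Borel probability measure. -/
structure IsInvariant (f : Torus ≃ₜ Torus) (ρ : Measure Torus) : Prop where
  prob : IsProbabilityMeasure ρ
  inv : MeasurePreserving f ρ ρ

/-- The finite set `s` of real numbers is the set of the characteristic exponents at `proj z` and
`(V c)`, `c ∈ s`, is the corresponding splitting of the tangent space: the tangent space is the
direct sum of the subspaces `V c`, and `(1/n) log ‖Dfⁿ u‖ → c` as `n → ±∞` for every nonzero vector
`u` of `V c`. -/
structure IsSplitting (F G : Plane → Plane) (z : Plane) (s : Finset ℝ)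
    (V : ℝ → Submodule ℝ Plane) : Prop where
  internal : DirectSum.IsInternal (fun c : s => V c)
  forward : ∀ c ∈ s, ∀ u ∈ V c, u ≠ 0 →
    Tendsto (fun n : ℕ => 1 / (n : ℝ) * Real.log ‖fderiv ℝ (F^[n]) z u‖) atTop (𝓝 c)
  backward : ∀ c ∈ s, ∀ u ∈ V c, u ≠ 0 →
    Tendsto (fun n : ℕ => 1 / (-(n : ℝ)) * Real.log ‖fderiv ℝ (G^[n]) z u‖) atTop (𝓝 c)

/-- `χ` is the function `χ₊`, the sum of the positive characteristic exponents counted with their
multiplicities, at `ρ`-almost every point. -/
def IsChiPlus (F G : Plane → Plane) (ρ : Measure Torus) (χ : Torus → ℝ) : Prop :=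
  ∀ᵐ x ∂ρ, ∀ z : Plane, proj z = x → ∃ (s : Finset ℝ) (V : ℝ → Submodule ℝ Plane),
    IsSplitting F G z s V ∧ χ x = ∑ c ∈ s with 0 < c, c * Module.finrank ℝ (V c)

end Pool.Agent.Y318.HN
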