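import Pool.Agent.Y318.HN.Map

/-!
# Invariant measures live on eight fixed points
-/

set_option autoImplicit false

open Set Filter Topology MeasureTheory Function
open scoped ContDiff

namespace Pool.Agent.Y318.HN

noncomputable section

lemma sin_add_two_arctan (t g : ℝ) : Real.sin (t + 2 * Real.arctan g) =
    (Real.sin t * (1 - g ^ 2) + 2 * g * Real.cos t) / (1 + g ^ 2) := by
  have h : (0 : ℝ) < 1 + g ^ 2 := by positivity
  rw [Real.sin_add, Real.cos_two_mul, Real.sin_two_mul, Real.cos_arctan, Real.sin_arctan]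
  have h1 : Real.sqrt (1 + g ^ 2) ^ 2 = 1 + g ^ 2 := Real.sq_sqrt h.le
  have h2 : Real.sqrt (1 + g ^ 2) ≠ 0 := (Real.sqrt_pos.2 h).ne'
  field_simp
  rw [h1]
  ring

lemma cos_add_two_arctan (t g : ℝ) : Real.cos (t + 2 * Real.arctan g) =
    (Real.cos t * (1 - g ^ 2) - 2 * g * Real.sin t) / (1 + g ^ 2) := by
  have h : (0 : ℝ) < 1 + g ^ 2 := by positivity
  rw [Real.cos_add, Real.cos_two_mul, Real.sin_two_mul, Real.cos_arctan, Real.sin_arctan]
  have h1 : Real.sqrt (1 + g ^ 2) ^ 2 = 1 + g ^ 2 := Real.sq_sqrt h.le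
  have h2 : Real.sqrt (1 + g ^ 2) ≠ 0 := (Real.sqrt_pos.2 h).ne'
  field_simp
  rw [h1]
  ring

lemma arg1 (z : Plane) : 2 * Real.pi * (F0 z).1 = 2 * Real.pi * z.1 + 2 * Real.arctan (g1 z) := by
  have : (F0 z).1 = z.1 + Real.pi⁻¹ * Real.arctan (g1 z) := rfl
  rw [this]
  have := Real.pi_pos
  field_simp
lemma arg2 (z : Plane) : 2 * Real.pi * (F0 z).2 = 2 * Real.pi * z.2 + 2 * Real.arctan (-g2 z) := by
  have : (F0 z).2 = z.2 + -(Real.pi⁻¹ * Real.arctan (g2 z)) := rfl
  rw [this, Real.arctan_neg]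
  have := Real.pi_pos
  field_simp

/-- `1 - 2kc + k²` for the first map -/
lemma e1_eq (z : Plane) : e1 z = 1 - A z * B z / 5 + B z ^ 2 / 100 := by
  unfold e1 d1
  linear_combination (B z ^ 2 / 100) * AS z
lemma e2_eq (z : Plane) : e2 z = 1 + A z * B z / 5 + A z ^ 2 / 100 := by
  unfold e2 d2
  linear_combination (A z ^ 2 / 100) * BT z

lemma S_F0 (z : Plane) : S (F0 z) = S z * (1 - B z ^ 2 / 100) / e1 z := by
  have h1 := d1_pos z
  have h3 := e1_pos z
  have k1 : 1 + g1 z ^ 2 = e1 z / d1 z ^ 2 := by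
    unfold g1 e1
    field_simp
  have hn : S z * (1 - g1 z ^ 2) + 2 * g1 z * A z = S z * (1 - B z ^ 2 / 100) / d1 z ^ 2 := by
    unfold g1
    field_simp
    have h1 : d1 z = 1 - A z * B z / 10 := rfl
    rw [h1]
    linear_combination (-(100 * S z * B z ^ 2)) * AS z
  have h : S (F0 z) = (S z * (1 - g1 z ^ 2) + 2 * g1 z * A z) / (1 + g1 z ^ 2) := by
    unfold S
    rw [arg1, sin_add_two_arctan]
    rfl
  rw [h, k1, hn]
  field_simp

lemma A_F0 (z : Plane) : A (F0 z) = (A z * (1 + B z ^ 2 / 100) - B z / 5) / e1 z := by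
  have h1 := d1_pos z
  have h3 := e1_pos z
  have k1 : 1 + g1 z ^ 2 = e1 z / d1 z ^ 2 := by
    unfold g1 e1
    field_simp
  have hn : A z * (1 - g1 z ^ 2) - 2 * g1 z * S z = (A z * (1 + B z ^ 2 / 100) - B z / 5) / d1 z ^ 2 := by
    unfold g1
    field_simp
    have h1 : d1 z = 1 - A z * B z / 10 := rfl
    rw [h1]
    linear_combination (500 * A z * B z ^ 2 - 10000 * B z) * AS z
  have h : A (F0 z) = (A z * (1 - g1 z ^ 2) - 2 * g1 z * S z) / (1 + g1 z ^ 2) := by
    unfold A
    rw [arg1, cos_add_two_arctan]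
    rfl
  rw [h, k1, hn]
  field_simp

lemma T_F0 (z : Plane) : T (F0 z) = T z * (1 - A z ^ 2 / 100) / e2 z := by
  have h1 := d2_pos z
  have h3 := e2_pos z
  have k1 : 1 + (-g2 z) ^ 2 = e2 z / d2 z ^ 2 := by
    unfold g2 e2
    field_simp
  have hn : T z * (1 - (-g2 z) ^ 2) + 2 * (-g2 z) * B z = T z * (1 - A z ^ 2 / 100) / d2 z ^ 2 := by
    unfold g2
    field_simp
    have h1 : d2 z = 1 + A z * B z / 10 := rfl
    rw [h1]
    linear_combination (-(100 * T z * A z ^ 2)) * BT z
  have h : T (F0 z) = (T z * (1 - (-g2 z) ^ 2) + 2 * (-g2 z) * B z) / (1 + (-g2 z) ^ 2) := by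
    unfold T
    rw [arg2, sin_add_two_arctan]
    rfl
  rw [h, k1, hn]
  field_simp

lemma B_F0 (z : Plane) : B (F0 z) = (B z * (1 + A z ^ 2 / 100) + A z / 5) / e2 z := by
  have h1 := d2_pos z
  have h3 := e2_pos z
  have k1 : 1 + (-g2 z) ^ 2 = e2 z / d2 z ^ 2 := by
    unfold g2 e2
    field_simp
  have hn : B z * (1 - (-g2 z) ^ 2) - 2 * (-g2 z) * T z =
      (B z * (1 + A z ^ 2 / 100) + A z / 5) / d2 z ^ 2 := by
    unfold g2
    field_simp
    have h1 : d2 z = 1 + A z * B z / 10 := rfl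
    rw [h1]
    linear_combination (500 * A z ^ 2 * B z + 10000 * A z) * BT z
  have h : B (F0 z) = (B z * (1 - (-g2 z) ^ 2) - 2 * (-g2 z) * T z) / (1 + (-g2 z) ^ 2) := by
    unfold B
    rw [arg2, cos_add_two_arctan]
    rfl
  rw [h, k1, hn]
  field_simp

/-! ### Lyapunov functions -/

/-- first Lyapunov function -/
def hh (z : Plane) : ℝ := (S z * T z) ^ 2
/-- second Lyapunov function -/
def psi (z : Plane) : ℝ := A z * B z

lemma cross_le {a b : ℝ} (ha : a ^ 2 ≤ 1) (hb : b ^ 2 ≤ 1) :
    |a * b * (b ^ 2 - a ^ 2)| ≤ (1 - b ^ 2) * a ^ 2 + (1 - a ^ 2) * b ^ 2 := by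
  rw [abs_mul]
  rcases le_total (a ^ 2) (b ^ 2) with h | h
  · have h1 : |a * b| ≤ b ^ 2 := by
      rw [abs_mul, ← sq_abs b, sq]
      exact mul_le_mul_of_nonneg_right (sq_le_sq.1 h) (abs_nonneg _)
    have h2 : |b ^ 2 - a ^ 2| ≤ 1 - a ^ 2 := by
      rw [abs_of_nonneg (by linarith)]
      linarith
    calc |a * b| * |b ^ 2 - a ^ 2| ≤ b ^ 2 * (1 - a ^ 2) :=
          mul_le_mul h1 h2 (abs_nonneg _) (sq_nonneg _)
      _ ≤ _ := by nlinarith [mul_nonneg (sub_nonneg.2 hb) (sq_nonneg a)]
  · have h1 : |a * b| ≤ a ^ 2 := by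
      rw [abs_mul, ← sq_abs a, sq]
      exact mul_le_mul_of_nonneg_left (sq_le_sq.1 h) (abs_nonneg _)
    have h2 : |b ^ 2 - a ^ 2| ≤ 1 - b ^ 2 := by
      rw [abs_of_nonpos (by linarith)]
      linarith
    calc |a * b| * |b ^ 2 - a ^ 2| ≤ a ^ 2 * (1 - b ^ 2) :=
          mul_le_mul h1 h2 (abs_nonneg _) (sq_nonneg _)
      _ ≤ _ := by nlinarith [mul_nonneg (sub_nonneg.2 ha) (sq_nonneg b)]

lemma hh_F0 (z : Plane) : hh (F0 z) ≤ hh z ∧
    (hh (F0 z) = hh z → S z * T z = 0 ∨ (A z = 0 ∧ B z = 0)) := by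
  have h1 := e1_pos z
  have h2 := e2_pos z
  have hA : A z ^ 2 ≤ 1 := by nlinarith [AS z, sq_nonneg (S z)]
  have hB : B z ^ 2 ≤ 1 := by nlinarith [BT z, sq_nonneg (T z)]
  set D := (1 - B z ^ 2 / 100) * (1 - A z ^ 2 / 100) with hD
  have hDpos : 0 < D := by
    apply mul_pos <;> nlinarith
  set N := e1 z * e2 z with hN
  have hNpos : 0 < N := mul_pos h1 h2
  set E := (1 - B z ^ 2) * A z ^ 2 + (1 - A z ^ 2) * B z ^ 2 with hE
  have hcr := abs_le.1 (cross_le hA hB)
  have hND : N - D = 1 / 50 * (E + 1 / 10 * (A z * B z * (B z ^ 2 - A z ^ 2))) := by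
    rw [hN, hD, hE, e1_eq, e2_eq]
    ring
  have hE0 : 0 ≤ E := by
    have := mul_nonneg (sub_nonneg.2 hB) (sq_nonneg (A z))
    have := mul_nonneg (sub_nonneg.2 hA) (sq_nonneg (B z))
    linarith
  have hle : D ≤ N := by linarith
  have hval : hh (F0 z) = hh z * (D / N) ^ 2 := by
    unfold hh
    rw [S_F0, T_F0, hD, hN]
    field_simp
  have hr1 : D / N ≤ 1 := (div_le_one hNpos).2 hle
  have hr0 : 0 < D / N := div_pos hDpos hNpos
  have hhnn : 0 ≤ hh z := sq_nonneg _
  refine ⟨?_, ?_⟩
  · rw [hval]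
    have : (D / N) ^ 2 ≤ 1 := pow_le_one₀ hr0.le hr1
    nlinarith
  · intro h
    rw [hval] at h
    by_cases hz : hh z = 0
    · left
      exact pow_eq_zero_iff (two_ne_zero) |>.1 hz
    · right
      have h3 : (D / N) ^ 2 = 1 := by
        have : hh z * ((D / N) ^ 2 - 1) = 0 := by linarith
        rcases mul_eq_zero.1 this with h | h
        · exact absurd h hz
        · linarith
      have h4 : D / N = 1 := by nlinarith
      have h5 : D = N := by
        rw [div_eq_one_iff_eq hNpos.ne'] at h4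
        exact h4
      have h6 : E = 0 := by linarith
      have h7 : (1 - B z ^ 2) * A z ^ 2 = 0 := by
        have := mul_nonneg (sub_nonneg.2 hB) (sq_nonneg (A z))
        have := mul_nonneg (sub_nonneg.2 hA) (sq_nonneg (B z))
        linarith
      have h8 : (1 - A z ^ 2) * B z ^ 2 = 0 := by
        have := mul_nonneg (sub_nonneg.2 hB) (sq_nonneg (A z))
        have := mul_nonneg (sub_nonneg.2 hA) (sq_nonneg (B z))
        linarith
      have hS : S z ≠ 0 := by
        rintro hS
        apply hz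
        unfold hh
        rw [hS]; ring
      have hT : T z ≠ 0 := by
        rintro hT
        apply hz
        unfold hh
        rw [hT]; ring
      have h9 : (1 - B z ^ 2) = T z ^ 2 := by linarith [BT z]
      have h10 : (1 - A z ^ 2) = S z ^ 2 := by linarith [AS z]
      rw [h9] at h7
      rw [h10] at h8
      constructor
      · rcases mul_eq_zero.1 h7 with h | h
        · exact absurd (pow_eq_zero_iff (two_ne_zero) |>.1 h) hT
        · exact pow_eq_zero_iff (two_ne_zero) |>.1 h
      · rcases mul_eq_zero.1 h8 with h | h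
        · exact absurd (pow_eq_zero_iff (two_ne_zero) |>.1 h) hS
        · exact pow_eq_zero_iff (two_ne_zero) |>.1 h

lemma T_F0_iff (z : Plane) : T (F0 z) = 0 ↔ T z = 0 := by
  have h2 := e2_pos z
  have hA : A z ^ 2 ≤ 1 := by nlinarith [AS z, sq_nonneg (S z)]
  rw [T_F0, div_eq_zero_iff, mul_eq_zero]
  constructor
  · rintro ((h | h) | h)
    · exact h
    · exfalso; linarith
    · exfalso; linarith
  · intro h
    exact Or.inl (Or.inl h)

lemma S_F0_iff (z : Plane) : S (F0 z) = 0 ↔ S z = 0 := by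
  have h2 := e1_pos z
  have hA : B z ^ 2 ≤ 1 := by nlinarith [BT z, sq_nonneg (T z)]
  rw [S_F0, div_eq_zero_iff, mul_eq_zero]
  constructor
  · rintro ((h | h) | h)
    · exact h
    · exfalso; linarith
    · exfalso; linarith
  · intro h
    exact Or.inl (Or.inl h)

lemma psi_T {z : Plane} (h : T z = 0) : psi (F0 z) = psi z - S z ^ 2 / (5 * e1 z) := by
  have h1 := e1_pos z
  have h2 := e2_pos z
  have hB : B z ^ 2 = 1 := by have := BT z; rw [h] at this; linarith
  have hB' : B (F0 z) = B z := by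
    rw [B_F0, div_eq_iff h2.ne', e2_eq]
    linear_combination (-(A z) / 5) * hB
  unfold psi
  rw [hB', A_F0]
  have h3 : S z ^ 2 = 1 - A z ^ 2 := by linarith [AS z]
  rw [h3]
  have h4 : (A z * (1 + B z ^ 2 / 100) - B z / 5) * B z = A z * B z * e1 z - (1 - A z ^ 2) / 5 := by
    rw [e1_eq]
    linear_combination (-(1 - A z ^ 2) / 5) * hB
  rw [div_mul_eq_mul_div, h4]
  field_simp

lemma psi_S {z : Plane} (h : S z = 0) : psi (F0 z) = psi z + T z ^ 2 / (5 * e2 z) := by
  have h1 := e1_pos z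
  have h2 := e2_pos z
  have hA : A z ^ 2 = 1 := by have := AS z; rw [h] at this; linarith
  have hA' : A (F0 z) = A z := by
    rw [A_F0, div_eq_iff h1.ne', e1_eq]
    linear_combination ((B z) / 5) * hA
  unfold psi
  rw [hA', B_F0]
  have h3 : T z ^ 2 = 1 - B z ^ 2 := by linarith [BT z]
  rw [h3]
  have h4 : A z * (B z * (1 + A z ^ 2 / 100) + A z / 5) = A z * B z * e2 z + (1 - B z ^ 2) / 5 := by
    rw [e2_eq]
    linear_combination ((1 - B z ^ 2) / 5) * hA
  rw [mul_div_assoc', h4]
  field_simp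

/-! ### functions on the torus -/

/-- the function on the torus with a given lift -/
def dn (g : Plane → ℝ) (x : Torus) : ℝ := g (rep x)

lemma dn_proj {g : Plane → ℝ} (hg : ∀ z k, g (z + lat k) = g z) (z : Plane) :
    dn g (proj z) = g z := by
  unfold dn
  obtain ⟨k, hk⟩ := (proj_eq_iff z (rep (proj z))).1 (proj_rep _).symm
  rw [hk, hg]

lemma dn_continuous {g : Plane → ℝ} (hg : ∀ z k, g (z + lat k) = g z) (hc : Continuous g) :
    Continuous (dn g) := by
  apply continuous_of_lift
  simp_rw [dn_proj hg]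
  exact hc

lemma hh_lat (z : Plane) (k : ℤ × ℤ) : hh (z + lat k) = hh z := by
  unfold hh; rw [S_lat, T_lat]
lemma psi_lat (z : Plane) (k : ℤ × ℤ) : psi (z + lat k) = psi z := by
  unfold psi; rw [A_lat, B_lat]

lemma hh_cont : Continuous hh := (S_contDiff.continuous.mul T_contDiff.continuous).pow 2
lemma psi_cont : Continuous psi := A_contDiff.continuous.mul B_contDiff.continuous

lemma ae_eq_of_le {X : Type*} [MeasurableSpace X] {ρ : Measure X} [IsProbabilityMeasure ρ]
    {f : X → X} (hf : MeasurePreserving f ρ ρ) {w : X → ℝ} (hw : Measurable w)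
    {C : ℝ} (hb : ∀ x, |w x| ≤ C) (hle : ∀ x, w (f x) ≤ w x) : ∀ᵐ x ∂ρ, w (f x) = w x := by
  have hi : Integrable w ρ := Integrable.of_bound hw.aestronglyMeasurable C
    (Eventually.of_forall fun x => hb x)
  have hi2 : Integrable (fun x => w (f x)) ρ := hf.integrable_comp_of_integrable hi
  have h0 : ∫ x, (w x - w (f x)) ∂ρ = 0 := by
    rw [integral_sub hi hi2]
    have : ∫ x, w (f x) ∂ρ = ∫ x, w x ∂ρ := by
      have := integral_map hf.measurable.aemeasurable
        (f := w) (by rw [hf.map_eq]; exact hw.aestronglyMeasurable)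
      rw [hf.map_eq] at this
      exact this.symm
    rw [this, sub_self]
  have h1 : (fun x => w x - w (f x)) =ᵐ[ρ] 0 :=
    (integral_eq_zero_iff_of_nonneg (fun x => sub_nonneg.2 (hle x)) (hi.sub hi2)).1 h0
  filter_upwards [h1] with x hx
  have : w x - w (f x) = 0 := hx
  linarith

/-- `z` is one of the saddles -/
def IsSad (z : Plane) : Prop := S z = 0 ∧ T z = 0
/-- `z` is one of the sources -/
def IsSrc (z : Plane) : Prop := A z = 0 ∧ B z = 0

theorem ae_fixed {ρ : Measure Torus} (hρ : IsInvariant ft ρ) :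
    ∀ᵐ x ∂ρ, ∀ z, proj z = x → IsSad z ∨ IsSrc z := by
  have := hρ.prob
  have hST : ∀ z k, (fun z => S z * T z) (z + lat k) = (fun z => S z * T z) z := by
    intro z k; simp only; rw [S_lat, T_lat]
  -- step 1
  have h1 : ∀ᵐ x ∂ρ, dn hh (ft x) = dn hh x := by
    apply ae_eq_of_le hρ.inv (dn_continuous hh_lat hh_cont).measurable (C := 1)
    · intro x
      obtain ⟨z, rfl⟩ := proj_surjective x
      rw [dn_proj hh_lat]
      unfold hh
      rw [abs_of_nonneg (sq_nonneg _), ← sq_abs]
      exact pow_le_one₀ (abs_nonneg _) (ST_abs z)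
    · intro x
      obtain ⟨z, rfl⟩ := proj_surjective x
      rw [ft_proj, dn_proj hh_lat, dn_proj hh_lat]
      exact (hh_F0 z).1
  -- step 2
  have hmT : MeasurableSet {x : Torus | dn T x = 0} :=
    (isClosed_singleton.preimage (dn_continuous T_lat T_contDiff.continuous)).measurableSet
  have hmS : MeasurableSet {x : Torus | dn S x = 0} :=
    (isClosed_singleton.preimage (dn_continuous S_lat S_contDiff.continuous)).measurableSet
  have hpm : Measurable (dn psi) := (dn_continuous psi_lat psi_cont).measurable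
  have hpb : ∀ x, |dn psi x| ≤ 1 := by
    intro x
    obtain ⟨z, rfl⟩ := proj_surjective x
    rw [dn_proj psi_lat]
    exact AB_abs z
  have h2 : ∀ᵐ x ∂ρ, indicator {x : Torus | dn T x = 0} (dn psi) (ft x) =
      indicator {x : Torus | dn T x = 0} (dn psi) x := by
    apply ae_eq_of_le hρ.inv (hpm.indicator hmT) (C := 1)
    · intro x
      by_cases hx : x ∈ {x : Torus | dn T x = 0}
      · rw [indicator_of_mem hx]; exact hpb x
      · rw [indicator_of_notMem hx]; simp
    · intro x
      obtain ⟨z, rfl⟩ := proj_surjective x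
      by_cases hx : T z = 0
      · have hx1 : proj z ∈ {x : Torus | dn T x = 0} := by
          show dn T (proj z) = 0
          rw [dn_proj T_lat]; exact hx
        have hx2 : ft (proj z) ∈ {x : Torus | dn T x = 0} := by
          show dn T (ft (proj z)) = 0
          rw [ft_proj, dn_proj T_lat]; exact (T_F0_iff z).2 hx
        rw [indicator_of_mem hx1, indicator_of_mem hx2, ft_proj, dn_proj psi_lat, dn_proj psi_lat,
          psi_T hx]
        have : 0 ≤ S z ^ 2 / (5 * e1 z) := by have := e1_pos z; positivity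
        linarith
      · have hx1 : proj z ∉ {x : Torus | dn T x = 0} := by
          show ¬ dn T (proj z) = 0
          rw [dn_proj T_lat]; exact hx
        have hx2 : ft (proj z) ∉ {x : Torus | dn T x = 0} := by
          show ¬ dn T (ft (proj z)) = 0
          rw [ft_proj, dn_proj T_lat, T_F0_iff]; exact hx
        rw [indicator_of_notMem hx1, indicator_of_notMem hx2]
  have h3 : ∀ᵐ x ∂ρ, indicator {x : Torus | dn S x = 0} (fun x => -dn psi x) (ft x) =
      indicator {x : Torus | dn S x = 0} (fun x => -dn psi x) x := by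
    apply ae_eq_of_le hρ.inv (hpm.neg.indicator hmS) (C := 1)
    · intro x
      by_cases hx : x ∈ {x : Torus | dn S x = 0}
      · rw [indicator_of_mem hx, Pi.neg_apply, abs_neg]; exact hpb x
      · rw [indicator_of_notMem hx]; simp
    · intro x
      obtain ⟨z, rfl⟩ := proj_surjective x
      by_cases hx : S z = 0
      · have hx1 : proj z ∈ {x : Torus | dn S x = 0} := by
          show dn S (proj z) = 0
          rw [dn_proj S_lat]; exact hx
        have hx2 : ft (proj z) ∈ {x : Torus | dn S x = 0} := by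
          show dn S (ft (proj z)) = 0
          rw [ft_proj, dn_proj S_lat]; exact (S_F0_iff z).2 hx
        rw [indicator_of_mem hx1, indicator_of_mem hx2, Pi.neg_apply, Pi.neg_apply, ft_proj,
          dn_proj psi_lat, dn_proj psi_lat, psi_S hx]
        have : 0 ≤ T z ^ 2 / (5 * e2 z) := by have := e2_pos z; positivity
        linarith
      · have hx1 : proj z ∉ {x : Torus | dn S x = 0} := by
          show ¬ dn S (proj z) = 0
          rw [dn_proj S_lat]; exact hx
        have hx2 : ft (proj z) ∉ {x : Torus | dn S x = 0} := by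
          show ¬ dn S (ft (proj z)) = 0
          rw [ft_proj, dn_proj S_lat, S_F0_iff]; exact hx
        rw [indicator_of_notMem hx1, indicator_of_notMem hx2]
  filter_upwards [h1, h2, h3] with x hx1 hx2 hx3 z hz
  subst hz
  rw [ft_proj, dn_proj hh_lat, dn_proj hh_lat] at hx1
  rcases (hh_F0 z).2 hx1 with h | h
  · left
    rcases mul_eq_zero.1 h with hS | hT
    · have m1 : proj z ∈ {x : Torus | dn S x = 0} := by
        show dn S (proj z) = 0
        rw [dn_proj S_lat]; exact hS
      have m2 : ft (proj z) ∈ {x : Torus | dn S x = 0} := by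
        show dn S (ft (proj z)) = 0
        rw [ft_proj, dn_proj S_lat]; exact (S_F0_iff z).2 hS
      rw [indicator_of_mem m1, indicator_of_mem m2, ft_proj, dn_proj psi_lat, dn_proj psi_lat,
        psi_S hS] at hx3
      refine ⟨hS, ?_⟩
      have h5 : T z ^ 2 / (5 * e2 z) = 0 := by linarith
      have := e2_pos z
      rw [div_eq_zero_iff] at h5
      rcases h5 with h5 | h5
      · exact pow_eq_zero_iff two_ne_zero |>.1 h5
      · exfalso; linarith
    · have m1 : proj z ∈ {x : Torus | dn T x = 0} := by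
        show dn T (proj z) = 0
        rw [dn_proj T_lat]; exact hT
      have m2 : ft (proj z) ∈ {x : Torus | dn T x = 0} := by
        show dn T (ft (proj z)) = 0
        rw [ft_proj, dn_proj T_lat]; exact (T_F0_iff z).2 hT
      rw [indicator_of_mem m1, indicator_of_mem m2, ft_proj, dn_proj psi_lat, dn_proj psi_lat,
        psi_T hT] at hx2
      refine ⟨?_, hT⟩
      have h5 : S z ^ 2 / (5 * e1 z) = 0 := by linarith
      have := e1_pos z
      rw [div_eq_zero_iff] at h5
      rcases h5 with h5 | h5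
      · exact pow_eq_zero_iff two_ne_zero |>.1 h5
      · exfalso; linarith
  · right
    exact h

lemma P_sad {z : Plane} (h : IsSad z) : P z = 0 := by
  unfold P g1 g2
  rw [h.1, h.2]
  simp
lemma P_src {z : Plane} (h : IsSrc z) : P z = 0 := by
  unfold P g1 g2
  rw [h.1, h.2]
  simp

lemma F0_fixed {z : Plane} (h : IsSad z ∨ IsSrc z) : F0 z = z := by
  unfold F0
  rcases h with h | h
  · rw [P_sad h, add_zero]
  · rw [P_src h, add_zero]

end

end Pool.Agent.Y318.HN
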