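import Pool.Agent.Y318.HN.Dyn

/-!
# The characteristic exponents at the fixed points
-/

set_option autoImplicit false

open Set Filter Topology MeasureTheory Function
open scoped ContDiff

namespace Pool.Agent.Y318.HN

noncomputable section

lemma tendsto_log_div {a : ℕ → ℝ} {r c C : ℝ} (hr : 0 < r) (hc : 0 < c) (hC : 0 < C)
    (h1 : ∀ n, c * r ^ n ≤ a n) (h2 : ∀ n, a n ≤ C * r ^ n) :
    Tendsto (fun n : ℕ => 1 / (n : ℝ) * Real.log (a n)) atTop (𝓝 (Real.log r)) := by
  have hlim : ∀ b : ℝ, Tendsto (fun n : ℕ => 1 / (n : ℝ) * (b + n * Real.log r)) atTop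
      (𝓝 (Real.log r)) := by
    intro b
    have h3 : Tendsto (fun n : ℕ => b / (n : ℝ) + Real.log r) atTop (𝓝 (0 + Real.log r)) :=
      (tendsto_const_div_atTop_nhds_zero_nat b).add_const _
    rw [zero_add] at h3
    refine h3.congr' ?_
    filter_upwards [eventually_gt_atTop 0] with n hn
    have hn' : (0 : ℝ) < n := by exact_mod_cast hn
    field_simp
  refine tendsto_of_tendsto_of_tendsto_of_le_of_le (hlim (Real.log c)) (hlim (Real.log C)) ?_ ?_
  · intro n
    have hrn : 0 < r ^ n := pow_pos hr n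
    have : Real.log c + n * Real.log r ≤ Real.log (a n) := by
      rw [← Real.log_pow, ← Real.log_mul hc.ne' hrn.ne']
      exact Real.log_le_log (by positivity) (h1 n)
    show 1 / (n : ℝ) * (Real.log c + n * Real.log r) ≤ 1 / (n : ℝ) * Real.log (a n)
    gcongr
  · intro n
    have hrn : 0 < r ^ n := pow_pos hr n
    have hpos : 0 < a n := lt_of_lt_of_le (by positivity) (h1 n)
    have : Real.log (a n) ≤ Real.log C + n * Real.log r := by
      rw [← Real.log_pow, ← Real.log_mul hC.ne' hrn.ne']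
      exact Real.log_le_log hpos (h2 n)
    show 1 / (n : ℝ) * Real.log (a n) ≤ 1 / (n : ℝ) * (Real.log C + n * Real.log r)
    gcongr

lemma tendsto_neg_div {a : ℕ → ℝ} {l : ℝ}
    (h : Tendsto (fun n : ℕ => 1 / (n : ℝ) * Real.log (a n)) atTop (𝓝 l)) :
    Tendsto (fun n : ℕ => 1 / (-(n : ℝ)) * Real.log (a n)) atTop (𝓝 (-l)) := by
  refine h.neg.congr (fun n => ?_)
  rw [one_div, one_div, inv_neg, neg_mul]

/-! ### powers of the two kinds of matrices -/

lemma diag_pow (p s : ℝ) (n : ℕ) (u : Plane) :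
    ((lin2 p 0 0 s) ^ n) u = (p ^ n * u.1, s ^ n * u.2) := by
  induction n with
  | zero => simp
  | succ n ih =>
    rw [pow_succ', mul_apply_eq_comp, ih, lin2_apply]
    simp only
    ext
    · simp only; ring
    · simp only; ring

lemma diag_growth {p : ℝ} (hp : 1 < p) (u : Plane) (hu : u ≠ 0) :
    Tendsto (fun n : ℕ => 1 / (n : ℝ) * Real.log ‖((lin2 p 0 0 p⁻¹) ^ n) u‖) atTop
      (𝓝 (if u.1 = 0 then -Real.log p else Real.log p)) := by
  have hp0 : 0 < p := by linarith
  have hnu : 0 < ‖u‖ := norm_pos_iff.2 hu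
  by_cases h : u.1 = 0
  · rw [if_pos h]
    have h2 : u.2 ≠ 0 := fun h2 => hu (Prod.ext h h2)
    have h3 : 0 < |u.2| := abs_pos.2 h2
    rw [← Real.log_inv]
    apply tendsto_log_div (inv_pos.2 hp0) h3 h3
    · intro n
      rw [diag_pow, h, mul_zero, Prod.norm_mk, norm_zero, Real.norm_eq_abs, abs_mul,
        abs_of_pos (pow_pos (inv_pos.2 hp0) n), mul_comm]
      exact le_max_right _ _
    · intro n
      rw [diag_pow, h, mul_zero, Prod.norm_mk, norm_zero, Real.norm_eq_abs, abs_mul,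
        abs_of_pos (pow_pos (inv_pos.2 hp0) n), mul_comm]
      exact max_le (by positivity) le_rfl
  · rw [if_neg h]
    have h3 : 0 < |u.1| := abs_pos.2 h
    apply tendsto_log_div hp0 h3 hnu
    · intro n
      rw [diag_pow, Prod.norm_mk, Real.norm_eq_abs, abs_mul, abs_of_pos (pow_pos hp0 n), mul_comm]
      exact le_max_left _ _
    · intro n
      rw [diag_pow, Prod.norm_mk, Real.norm_eq_abs, Real.norm_eq_abs, abs_mul, abs_mul,
        abs_of_pos (pow_pos hp0 n), abs_of_pos (pow_pos (inv_pos.2 hp0) n)]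
      have h4 : |u.1| ≤ ‖u‖ := norm_fst_le u
      have h5 : |u.2| ≤ ‖u‖ := norm_snd_le u
      have h6 : p⁻¹ ^ n ≤ p ^ n := by
        apply pow_le_pow_left₀ (inv_pos.2 hp0).le
        exact (inv_le_one_of_one_le₀ hp.le).trans hp.le
      have h7 : 0 < p ^ n := pow_pos hp0 n
      have h8 : 0 < p⁻¹ ^ n := pow_pos (inv_pos.2 hp0) n
      apply max_le
      · nlinarith
      · nlinarith

lemma diag_growth' {p : ℝ} (hp : 1 < p) (u : Plane) (hu : u ≠ 0) :
    Tendsto (fun n : ℕ => 1 / (n : ℝ) * Real.log ‖((lin2 p⁻¹ 0 0 p) ^ n) u‖) atTop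
      (𝓝 (if u.2 = 0 then -Real.log p else Real.log p)) := by
  have h := diag_growth hp (u.2, u.1) (fun h => hu (by
    have h1 := congrArg Prod.fst h
    have h2 := congrArg Prod.snd h
    exact Prod.ext h2 h1))
  refine h.congr (fun n => ?_)
  congr 2
  rw [diag_pow, diag_pow, Prod.norm_mk, Prod.norm_mk]
  exact max_comm _ _

lemma rot_growth {t c : ℝ} (hc : 0 < c) (u : Plane) (hu : u ≠ 0) :
    Tendsto (fun n : ℕ => 1 / (n : ℝ) * Real.log ‖((lin2 c (-(c * t)) (c * t) c) ^ n) u‖) atTop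
      (𝓝 (1 / 2 * Real.log (c ^ 2 * (1 + t ^ 2)))) := by
  set R := lin2 c (-(c * t)) (c * t) c with hR
  set m := c ^ 2 * (1 + t ^ 2) with hm
  have hmpos : 0 < m := by positivity
  have hq : ∀ n, ((R ^ n) u).1 ^ 2 + ((R ^ n) u).2 ^ 2 = m ^ n * (u.1 ^ 2 + u.2 ^ 2) := by
    intro n
    induction n with
    | zero => simp
    | succ n ih =>
      rw [pow_succ' R n, mul_apply_eq_comp, hR, lin2_apply, ← hR]
      simp only
      have hms : m ^ (n + 1) * (u.1 ^ 2 + u.2 ^ 2) = m * (m ^ n * (u.1 ^ 2 + u.2 ^ 2)) := by ring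
      rw [hms, ← ih, hm]
      ring
  have hu2 : 0 < u.1 ^ 2 + u.2 ^ 2 := by
    by_contra hcon
    apply hu
    have h1 : u.1 ^ 2 = 0 := by nlinarith [sq_nonneg u.1, sq_nonneg u.2]
    have h2 : u.2 ^ 2 = 0 := by nlinarith [sq_nonneg u.1, sq_nonneg u.2]
    exact Prod.ext (pow_eq_zero_iff two_ne_zero |>.1 h1) (pow_eq_zero_iff two_ne_zero |>.1 h2)
  have hn1 : ∀ w : Plane, ‖w‖ ^ 2 ≤ w.1 ^ 2 + w.2 ^ 2 := by
    intro w
    rw [Prod.norm_def, Real.norm_eq_abs, Real.norm_eq_abs]
    rcases max_cases |w.1| |w.2| with ⟨h, _⟩ | ⟨h, _⟩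
    · rw [h, sq_abs]; nlinarith [sq_nonneg w.2]
    · rw [h, sq_abs]; nlinarith [sq_nonneg w.1]
  have hn2 : ∀ w : Plane, w.1 ^ 2 + w.2 ^ 2 ≤ 2 * ‖w‖ ^ 2 := by
    intro w
    have h1 : |w.1| ≤ ‖w‖ := norm_fst_le w
    have h2 : |w.2| ≤ ‖w‖ := norm_snd_le w
    have h3 := sq_le_sq' (by linarith [abs_nonneg w.1, norm_nonneg w]) h1
    have h4 := sq_le_sq' (by linarith [abs_nonneg w.2, norm_nonneg w]) h2
    rw [sq_abs] at h3 h4
    linarith
  have h : Tendsto (fun n : ℕ => 1 / (n : ℝ) * Real.log (‖(R ^ n) u‖ ^ 2)) atTop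
      (𝓝 (Real.log m)) := by
    apply tendsto_log_div hmpos (half_pos hu2) hu2
    · intro n
      have := hn2 ((R ^ n) u)
      rw [hq] at this
      linarith
    · intro n
      have := hn1 ((R ^ n) u)
      rw [hq] at this
      linarith
  refine (h.const_mul (1 / 2)).congr (fun n => ?_)
  rw [Real.log_pow]
  push_cast
  ring

/-! ### derivatives at the fixed points -/

/-- `L` and `M` are the derivatives of the map and of its inverse at the fixed point `z` -/
structure IsDer (z : Plane) (L M : Plane →L[ℝ] Plane) : Prop where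
  fwd : ∀ n : ℕ, fderiv ℝ (F0^[n]) z = L ^ n
  bwd : ∀ n : ℕ, fderiv ℝ (F0H.symm^[n]) z = M ^ n

lemma isDer {z : Plane} (hz : F0 z = z) {L M : Plane →L[ℝ] Plane}
    (hL : ContinuousLinearMap.id ℝ Plane + DP z = L) (hLM : L ∘L M = ContinuousLinearMap.id ℝ Plane) :
    IsDer z L M := by
  have h1 : HasFDerivAt F0 L z := by rw [← hL]; exact F0_der z
  have hG : F0H.symm z = z := by
    rw [Homeomorph.symm_apply_eq, F0H_apply, hz]
  have hGd : DifferentiableAt ℝ F0H.symm z := (G0_contDiff.differentiable (by simp)) z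
  have h2 : HasFDerivAt F0H.symm (fderiv ℝ F0H.symm z) (F0 z) := by
    rw [hz]; exact hGd.hasFDerivAt
  have h3 := h2.comp z h1
  have h4 : HasFDerivAt (F0H.symm ∘ F0) (ContinuousLinearMap.id ℝ Plane) z := by
    have : (F0H.symm ∘ F0 : Plane → Plane) = id := by
      funext w
      exact F0H.symm_apply_apply w
    rw [this]
    exact hasFDerivAt_id z
  have h5 := h3.unique h4
  have h6 : fderiv ℝ F0H.symm z = M := by
    calc fderiv ℝ F0H.symm z = (fderiv ℝ F0H.symm z) ∘L (L ∘L M) := by rw [hLM]; rfl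
      _ = ((fderiv ℝ F0H.symm z) ∘L L) ∘L M := rfl
      _ = M := by rw [h5]; rfl
  have h7 : HasFDerivAt F0H.symm M z := by rw [← h6]; exact hGd.hasFDerivAt
  exact ⟨fun n => (h1.iterate hz n).fderiv, fun n => (h7.iterate hG n).fderiv⟩

lemma lin2_comp (p q r s p' q' r' s' : ℝ) : (lin2 p q r s) ∘L (lin2 p' q' r' s') =
    lin2 (p * p' + q * r') (p * q' + q * s') (r * p' + s * r') (r * q' + s * s') := by
  apply ContinuousLinearMap.ext
  intro u
  rw [ContinuousLinearMap.comp_apply, lin2_apply, lin2_apply, lin2_apply]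
  ext
  · simp only; ring
  · simp only; ring

lemma lin2_id : ContinuousLinearMap.id ℝ Plane = lin2 1 0 0 1 := by
  apply ContinuousLinearMap.ext
  intro u
  rw [lin2_apply]
  simp

lemma id_add_DP (z : Plane) : ContinuousLinearMap.id ℝ Plane + DP z =
    lin2 (1 + B z * (A z - B z / 10) / 5 / e1 z) (-(S z * T z) / 5 / e1 z)
    (S z * T z / 5 / e2 z) (1 + -(A z * (B z + A z / 10)) / 5 / e2 z) := by
  apply ContinuousLinearMap.ext
  intro u
  rw [add_apply, DP, lin2_apply, lin2_apply]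
  ext
  · simp only [ContinuousLinearMap.id_apply, Prod.fst_add]; ring
  · simp only [ContinuousLinearMap.id_apply, Prod.snd_add]; ring

/-- the larger multiplier at the saddles -/
def pp : ℝ := 11 / 9

lemma one_lt_pp : 1 < pp := by unfold pp; norm_num

lemma der_sad {z : Plane} (h : IsSad z) :
    IsDer z (lin2 pp 0 0 pp⁻¹) (lin2 pp⁻¹ 0 0 pp) ∨ IsDer z (lin2 pp⁻¹ 0 0 pp) (lin2 pp 0 0 pp⁻¹) := by
  have hA : A z ^ 2 = 1 := by have := AS z; rw [h.1] at this; linarith
  have hB : B z ^ 2 = 1 := by have := BT z; rw [h.2] at this; linarith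
  have hAB : (A z * B z) ^ 2 = 1 := by rw [mul_pow, hA, hB, one_mul]
  have hpp : pp ≠ 0 := by unfold pp; norm_num
  have hz := F0_fixed (Or.inl h)
  have e1' := e1_eq z
  have e2' := e2_eq z
  rw [hB] at e1'
  rw [hA] at e2'
  have hfac : (A z * B z - 1) * (A z * B z + 1) = 0 := by linear_combination hAB
  have c1 : B z * (A z - B z / 10) = A z * B z - 1 / 10 := by linear_combination (-1 / 10) * hB
  have c2 : A z * (B z + A z / 10) = A z * B z + 1 / 10 := by linear_combination (1 / 10) * hA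
  rcases mul_eq_zero.1 hfac with h1 | h1
  · left
    have h1' : A z * B z = 1 := by linarith
    apply isDer hz
    · rw [id_add_DP, h.1, h.2, c1, c2, e1', e2', h1']
      unfold pp
      norm_num
    · rw [lin2_comp, lin2_id]
      simp only [mul_zero, zero_mul, add_zero, zero_add]
      rw [mul_inv_cancel₀ hpp, inv_mul_cancel₀ hpp]
  · right
    have h1' : A z * B z = -1 := by linarith
    apply isDer hz
    · rw [id_add_DP, h.1, h.2, c1, c2, e1', e2', h1']
      unfold pp
      norm_num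
    · rw [lin2_comp, lin2_id]
      simp only [mul_zero, zero_mul, add_zero, zero_add]
      rw [mul_inv_cancel₀ hpp, inv_mul_cancel₀ hpp]

lemma der_src {z : Plane} (h : IsSrc z) : ∃ t : ℝ, t ^ 2 = 1 / 25 ∧
    IsDer z (lin2 1 (-(1 * t)) (1 * t) 1) (lin2 (25 / 26) (-(25 / 26 * (-t))) (25 / 26 * (-t)) (25 / 26)) := by
  have hS : S z ^ 2 = 1 := by have := AS z; rw [h.1] at this; linarith
  have hT : T z ^ 2 = 1 := by have := BT z; rw [h.2] at this; linarith
  have hST : (S z * T z) ^ 2 = 1 := by rw [mul_pow, hS, hT, one_mul]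
  have hz := F0_fixed (Or.inr h)
  have e1' := e1_eq z
  have e2' := e2_eq z
  rw [h.1, h.2] at e1' e2'
  have ht : (S z * T z / 5) ^ 2 = 1 / 25 := by rw [div_pow, hST]; norm_num
  refine ⟨S z * T z / 5, ht, ?_⟩
  apply isDer hz
  · rw [id_add_DP, h.1, h.2, e1', e2']
    congr 1 <;> ring
  · rw [lin2_comp, lin2_id]
    congr 1
    · linear_combination (25 / 26) * ht
    · ring
    · ring
    · linear_combination (25 / 26) * ht

/-- the exponent at the saddles -/
def lam : ℝ := Real.log pp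
/-- the exponent at the sources -/
def kap : ℝ := 1 / 2 * Real.log (26 / 25)

lemma lam_pos : 0 < lam := Real.log_pos one_lt_pp
lemma kap_pos : 0 < kap := by
  unfold kap
  have : 0 < Real.log (26 / 25) := Real.log_pos (by norm_num)
  positivity

lemma sum_finrank {s : Finset ℝ} {V : ℝ → Submodule ℝ Plane}
    (h : DirectSum.IsInternal (fun c : s => V c)) : ∑ c ∈ s, Module.finrank ℝ (V c) = 2 := by
  classical
  have e := LinearEquiv.ofBijective (DirectSum.coeLinearMap (fun c : s => V c)) h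
  have h1 := e.finrank_eq
  rw [Module.finrank_directSum] at h1
  have h2 : Module.finrank ℝ Plane = 2 := by simp [Plane]
  rw [h2] at h1
  rw [← h1, ← Finset.sum_coe_sort s (fun c => Module.finrank ℝ (V c))]

/-- splitting at a saddle, abstract version -/
lemma sad_sum {z : Plane} {L M : Plane →L[ℝ] Plane} (hd : IsDer z L M) {s : Finset ℝ}
    {V : ℝ → Submodule ℝ Plane} (hs : IsSplitting F0 F0H.symm z s V) (l1 l2 : Plane →L[ℝ] ℝ)
    (hl1 : ∃ u, l1 u ≠ 0) (hl2 : ∃ u, l2 u ≠ 0)
    (hL : ∀ u : Plane, u ≠ 0 → Tendsto (fun n : ℕ => 1 / (n : ℝ) * Real.log ‖(L ^ n) u‖) atTop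
      (𝓝 (if l1 u = 0 then -lam else lam)))
    (hM : ∀ u : Plane, u ≠ 0 → Tendsto (fun n : ℕ => 1 / (n : ℝ) * Real.log ‖(M ^ n) u‖) atTop
      (𝓝 (if l2 u = 0 then -lam else lam))) :
    ∑ c ∈ s with 0 < c, c * Module.finrank ℝ (V c) = lam := by
  have hlam := lam_pos
  have hf : ∀ c ∈ s, ∀ u ∈ V c, u ≠ 0 → c = if l1 u = 0 then -lam else lam := by
    intro c hc u hu hu0
    have h1 := hs.forward c hc u hu hu0
    simp_rw [hd.fwd] at h1
    exact tendsto_nhds_unique h1 (hL u hu0)
  have hb : ∀ c ∈ s, ∀ u ∈ V c, u ≠ 0 → c = -(if l2 u = 0 then -lam else lam) := by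
    intro c hc u hu hu0
    have h1 := hs.backward c hc u hu hu0
    simp_rw [hd.bwd] at h1
    exact tendsto_nhds_unique h1 (tendsto_neg_div (hM u hu0))
  have hbot : ∀ c ∈ s, c ≠ lam → c ≠ -lam → Module.finrank ℝ (V c) = 0 := by
    intro c hc h1 h2
    rw [Submodule.finrank_eq_zero, Submodule.eq_bot_iff]
    intro u hu
    by_contra hu0
    have := hf c hc u hu hu0
    split_ifs at this
    · exact h2 this
    · exact h1 this
  have hle : ∀ l : Plane →L[ℝ] ℝ, (∃ u, l u ≠ 0) → ∀ W : Submodule ℝ Plane,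
      (∀ u ∈ W, l u = 0) → Module.finrank ℝ W ≤ 1 := by
    intro l hl W hW
    have h1 : W < ⊤ := by
      rw [lt_top_iff_ne_top]
      rintro rfl
      obtain ⟨u, hu⟩ := hl
      exact hu (hW u trivial)
    have h2 := Submodule.finrank_lt h1.ne
    have h3 : Module.finrank ℝ Plane = 2 := by simp [Plane]
    omega
  have hp1 : lam ∈ s → Module.finrank ℝ (V lam) ≤ 1 := by
    intro hc
    apply hle l2 hl2
    intro u hu
    by_contra hu2
    have hu0 : u ≠ 0 := by rintro rfl; exact hu2 (map_zero _)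
    have := hb lam hc u hu hu0
    rw [if_neg hu2] at this
    linarith
  have hm1 : -lam ∈ s → Module.finrank ℝ (V (-lam)) ≤ 1 := by
    intro hc
    apply hle l1 hl1
    intro u hu
    by_contra hu2
    have hu0 : u ≠ 0 := by rintro rfl; exact hu2 (map_zero _)
    have := hf (-lam) hc u hu hu0
    rw [if_neg hu2] at this
    linarith
  have hsum := sum_finrank hs.internal
  have hmem : lam ∈ s ∧ Module.finrank ℝ (V lam) = 1 := by
    by_contra hcon
    have hz : ∀ c ∈ s, c ≠ -lam → Module.finrank ℝ (V c) = 0 := by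
      intro c hc h1
      by_cases h2 : c = lam
      · subst h2
        have h3 := hp1 hc
        have h4 : Module.finrank ℝ (V lam) ≠ 1 := fun h => hcon ⟨hc, h⟩
        omega
      · exact hbot c hc h2 h1
    by_cases h5 : -lam ∈ s
    · rw [Finset.sum_eq_single_of_mem (-lam) h5 (fun c hc h => hz c hc h)] at hsum
      have := hm1 h5
      omega
    · rw [Finset.sum_eq_zero (fun c hc => hz c hc (fun h => h5 (h ▸ hc)))] at hsum
      omega
  have hmem2 : lam ∈ s.filter (fun c => 0 < c) := Finset.mem_filter.2 ⟨hmem.1, hlam⟩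
  rw [Finset.sum_eq_single_of_mem lam hmem2, hmem.2]
  · simp
  · intro c hc h1
    rw [Finset.mem_filter] at hc
    rw [hbot c hc.1 h1 (by intro h; linarith [hc.2])]
    simp

/-- splitting at a source, abstract version -/
lemma src_sum {z : Plane} {L M : Plane →L[ℝ] Plane} (hd : IsDer z L M) {s : Finset ℝ}
    {V : ℝ → Submodule ℝ Plane} (hs : IsSplitting F0 F0H.symm z s V)
    (hL : ∀ u : Plane, u ≠ 0 → Tendsto (fun n : ℕ => 1 / (n : ℝ) * Real.log ‖(L ^ n) u‖) atTop
      (𝓝 kap)) :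
    ∑ c ∈ s with 0 < c, c * Module.finrank ℝ (V c) = 2 * kap := by
  have hkap := kap_pos
  have hbot : ∀ c ∈ s, c ≠ kap → Module.finrank ℝ (V c) = 0 := by
    intro c hc h1
    rw [Submodule.finrank_eq_zero, Submodule.eq_bot_iff]
    intro u hu
    by_contra hu0
    have h2 := hs.forward c hc u hu hu0
    simp_rw [hd.fwd] at h2
    exact h1 (tendsto_nhds_unique h2 (hL u hu0))
  have hsum := sum_finrank hs.internal
  have hmem : kap ∈ s := by
    by_contra hcon
    rw [Finset.sum_eq_zero (fun c hc => hbot c hc (fun h => hcon (h ▸ hc)))] at hsum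
    omega
  rw [Finset.sum_eq_single_of_mem kap hmem (fun c hc h => hbot c hc h)] at hsum
  have hmem2 : kap ∈ s.filter (fun c => 0 < c) := Finset.mem_filter.2 ⟨hmem, hkap⟩
  rw [Finset.sum_eq_single_of_mem kap hmem2, hsum]
  · push_cast; ring
  · intro c hc h1
    rw [Finset.mem_filter] at hc
    rw [hbot c hc.1 h1]
    simp

/-! ### the value of `χ₊` at the fixed points -/

lemma one_div_pp : pp⁻¹ = 9 / 11 := by unfold pp; norm_num

lemma ite_eq_fst (u : Plane) : (if u.1 = 0 then -Real.log pp else Real.log pp) =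
    (if ContinuousLinearMap.fst ℝ ℝ ℝ u = 0 then -lam else lam) := rfl
lemma ite_eq_snd (u : Plane) : (if u.2 = 0 then -Real.log pp else Real.log pp) =
    (if ContinuousLinearMap.snd ℝ ℝ ℝ u = 0 then -lam else lam) := rfl

lemma fst_ne : ∃ u : Plane, ContinuousLinearMap.fst ℝ ℝ ℝ u ≠ 0 := ⟨(1, 0), by simp⟩
lemma snd_ne : ∃ u : Plane, ContinuousLinearMap.snd ℝ ℝ ℝ u ≠ 0 := ⟨(0, 1), by simp⟩

theorem chi_sad {z : Plane} (h : IsSad z) {s : Finset ℝ} {V : ℝ → Submodule ℝ Plane}
    (hs : IsSplitting F0 F0H.symm z s V) :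
    ∑ c ∈ s with 0 < c, c * Module.finrank ℝ (V c) = lam := by
  rcases der_sad h with hd | hd
  · exact sad_sum hd hs _ _ fst_ne snd_ne (fun u hu => diag_growth one_lt_pp u hu)
      (fun u hu => diag_growth' one_lt_pp u hu)
  · exact sad_sum hd hs _ _ snd_ne fst_ne (fun u hu => diag_growth' one_lt_pp u hu)
      (fun u hu => diag_growth one_lt_pp u hu)

lemma src_grow {t : ℝ} (ht : t ^ 2 = 1 / 25) (u : Plane) (hu : u ≠ 0) :
    Tendsto (fun n : ℕ => 1 / (n : ℝ) * Real.log ‖((lin2 1 (-(1 * t)) (1 * t) 1) ^ n) u‖) atTop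
      (𝓝 kap) := by
  have h := rot_growth (t := t) one_pos u hu
  rw [ht] at h
  have : (1 : ℝ) / 2 * Real.log (1 ^ 2 * (1 + 1 / 25)) = kap := by
    unfold kap
    norm_num
  rwa [this] at h

lemma src_grow' {t : ℝ} (ht : t ^ 2 = 1 / 25) (u : Plane) (hu : u ≠ 0) :
    Tendsto (fun n : ℕ => 1 / (n : ℝ) * Real.log ‖((lin2 (25 / 26) (-(25 / 26 * (-t)))
      (25 / 26 * (-t)) (25 / 26)) ^ n) u‖) atTop (𝓝 (-kap)) := by
  have h := rot_growth (t := -t) (by norm_num : (0 : ℝ) < 25 / 26) u hu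
  rw [neg_sq, ht] at h
  have : (1 : ℝ) / 2 * Real.log ((25 / 26) ^ 2 * (1 + 1 / 25)) = -kap := by
    unfold kap
    have h1 : ((25 : ℝ) / 26) ^ 2 * (1 + 1 / 25) = (26 / 25)⁻¹ := by norm_num
    rw [h1, Real.log_inv]
    ring
  rwa [this] at h

theorem chi_src {z : Plane} (h : IsSrc z) {s : Finset ℝ} {V : ℝ → Submodule ℝ Plane}
    (hs : IsSplitting F0 F0H.symm z s V) :
    ∑ c ∈ s with 0 < c, c * Module.finrank ℝ (V c) = 2 * kap := by
  obtain ⟨t, ht, hd⟩ := der_src h
  exact src_sum hd hs (src_grow ht)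

/-- a splitting exists at the sources -/
theorem split_src {z : Plane} (h : IsSrc z) :
    ∃ (s : Finset ℝ) (V : ℝ → Submodule ℝ Plane), IsSplitting F0 F0H.symm z s V := by
  obtain ⟨t, ht, hd⟩ := der_src h
  refine ⟨{kap}, fun _ => ⊤, ?_, ?_, ?_⟩
  · rw [DirectSum.isInternal_submodule_iff_iSupIndep_and_iSup_eq_top]
    constructor
    · have : Subsingleton ({kap} : Finset ℝ) := by
        constructor
        rintro ⟨a, ha⟩ ⟨b, hb⟩
        rw [Finset.mem_singleton] at ha hb
        subst ha; subst hb; rfl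
      intro i
      rw [disjoint_iff]
      rw [eq_bot_iff]
      intro x hx
      have hx2 := hx.2
      have : (⨆ (j : ({kap} : Finset ℝ)) (_ : j ≠ i), (⊤ : Submodule ℝ Plane)) = ⊥ := by
        rw [iSup_eq_bot]
        intro j
        rw [iSup_eq_bot]
        intro hj
        exact absurd (Subsingleton.elim j i) hj
      rw [this] at hx2
      exact hx2
    · rw [eq_top_iff]
      exact le_iSup (fun _ : ({kap} : Finset ℝ) => (⊤ : Submodule ℝ Plane))
        ⟨kap, Finset.mem_singleton_self _⟩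
  · intro c hc u _ hu
    rw [Finset.mem_singleton] at hc
    subst hc
    simp_rw [hd.fwd]
    exact src_grow ht u hu
  · intro c hc u _ hu
    rw [Finset.mem_singleton] at hc
    subst hc
    simp_rw [hd.bwd]
    have := tendsto_neg_div (src_grow' ht u hu)
    rwa [neg_neg] at this

/-- a splitting exists at the saddles, abstract version -/
lemma split_sad_aux {z : Plane} {L M : Plane →L[ℝ] Plane} (hd : IsDer z L M)
    (l1 l2 : Plane →L[ℝ] ℝ)
    (hc : IsCompl (LinearMap.ker l2.toLinearMap) (LinearMap.ker l1.toLinearMap))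
    (hL : ∀ u : Plane, u ≠ 0 → Tendsto (fun n : ℕ => 1 / (n : ℝ) * Real.log ‖(L ^ n) u‖) atTop
      (𝓝 (if l1 u = 0 then -lam else lam)))
    (hM : ∀ u : Plane, u ≠ 0 → Tendsto (fun n : ℕ => 1 / (n : ℝ) * Real.log ‖(M ^ n) u‖) atTop
      (𝓝 (if l2 u = 0 then -lam else lam))) :
    ∃ (s : Finset ℝ) (V : ℝ → Submodule ℝ Plane), IsSplitting F0 F0H.symm z s V := by
  classical
  have hlam := lam_pos
  have hne : lam ≠ -lam := by intro h; linarith
  have hdis := hc.disjoint
  rw [Submodule.disjoint_def] at hdis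
  have hV1 : (if lam = lam then LinearMap.ker l2.toLinearMap else LinearMap.ker l1.toLinearMap) =
      LinearMap.ker l2.toLinearMap := if_pos rfl
  have hV2 : (if -lam = lam then LinearMap.ker l2.toLinearMap else LinearMap.ker l1.toLinearMap) =
      LinearMap.ker l1.toLinearMap := if_neg (fun h => hne h.symm)
  refine ⟨{lam, -lam}, fun c => if c = lam then LinearMap.ker l2.toLinearMap
    else LinearMap.ker l1.toLinearMap, ?_, ?_, ?_⟩
  · have m1 : lam ∈ ({lam, -lam} : Finset ℝ) := by simp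
    have m2 : -lam ∈ ({lam, -lam} : Finset ℝ) := by simp
    rw [DirectSum.isInternal_submodule_iff_isCompl (i := ⟨lam, m1⟩) (j := ⟨-lam, m2⟩)]
    · show IsCompl (if lam = lam then LinearMap.ker l2.toLinearMap else LinearMap.ker l1.toLinearMap)
        (if -lam = lam then LinearMap.ker l2.toLinearMap else LinearMap.ker l1.toLinearMap)
      rw [hV1, hV2]
      exact hc
    · intro h
      exact hne (congrArg Subtype.val h)
    · ext ⟨c, hc'⟩
      simp only [mem_univ, mem_insert_iff, mem_singleton_iff, Subtype.mk.injEq, true_iff]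
      rwa [Finset.mem_insert, Finset.mem_singleton] at hc'
  · intro c hc' u hu hu0
    simp_rw [hd.fwd]
    rw [Finset.mem_insert, Finset.mem_singleton] at hc'
    have h1 := hL u hu0
    rcases hc' with rfl | rfl
    · have hu' : u ∈ LinearMap.ker l2.toLinearMap := by rw [← hV1]; exact hu
      have : l1 u ≠ 0 := fun h => hu0 (hdis u hu' h)
      rwa [if_neg this] at h1
    · have hu' : u ∈ LinearMap.ker l1.toLinearMap := by rw [← hV2]; exact hu
      have : l1 u = 0 := hu'
      rwa [if_pos this] at h1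
  · intro c hc' u hu hu0
    simp_rw [hd.bwd]
    rw [Finset.mem_insert, Finset.mem_singleton] at hc'
    have h1 := tendsto_neg_div (hM u hu0)
    rcases hc' with rfl | rfl
    · have hu' : u ∈ LinearMap.ker l2.toLinearMap := by rw [← hV1]; exact hu
      have : l2 u = 0 := hu'
      rwa [if_pos this, neg_neg] at h1
    · have hu' : u ∈ LinearMap.ker l1.toLinearMap := by rw [← hV2]; exact hu
      have : l2 u ≠ 0 := fun h => hu0 (hdis u h hu')
      rwa [if_neg this] at h1

lemma compl_axes : IsCompl (LinearMap.ker (ContinuousLinearMap.snd ℝ ℝ ℝ).toLinearMap)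
    (LinearMap.ker (ContinuousLinearMap.fst ℝ ℝ ℝ).toLinearMap) := by
  constructor
  · rw [Submodule.disjoint_def]
    intro u h1 h2
    exact Prod.ext h2 h1
  · rw [codisjoint_iff, eq_top_iff]
    intro u _
    rw [Submodule.mem_sup]
    exact ⟨(u.1, 0), rfl, (0, u.2), rfl, by simp⟩

theorem split_sad {z : Plane} (h : IsSad z) :
    ∃ (s : Finset ℝ) (V : ℝ → Submodule ℝ Plane), IsSplitting F0 F0H.symm z s V := by
  rcases der_sad h with hd | hd
  · exact split_sad_aux hd _ _ compl_axes (fun u hu => diag_growth one_lt_pp u hu)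
      (fun u hu => diag_growth' one_lt_pp u hu)
  · exact split_sad_aux hd _ _ compl_axes.symm (fun u hu => diag_growth' one_lt_pp u hu)
      (fun u hu => diag_growth one_lt_pp u hu)

end

end Pool.Agent.Y318.HN
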