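import Pool.Agent.Y318.HN.Defs

set_option autoImplicit false

open Set Filter Topology MeasureTheory Function
open scoped ContDiff

namespace Pool.Agent.Y318.HN

lemma coe_eq_iff (x y : ℝ) : (x : UnitAddCircle) = (y : UnitAddCircle) ↔ ∃ m : ℤ, y = x + m := by
  rw [QuotientAddGroup.eq, AddSubgroup.mem_zmultiples_iff]
  constructor
  · rintro ⟨m, hm⟩
    refine ⟨m, ?_⟩
    have : (m : ℝ) = -x + y := by simpa using hm
    linarith
  · rintro ⟨m, hm⟩
    refine ⟨m, ?_⟩
    simp only [zsmul_eq_mul, mul_one]
    linarith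

/-- integer vectors -/
def lat (k : ℤ × ℤ) : Plane := ((k.1 : ℝ), (k.2 : ℝ))

lemma proj_eq_iff (z w : Plane) : proj z = proj w ↔ ∃ k : ℤ × ℤ, w = z + lat k := by
  unfold proj lat
  rw [Prod.mk.injEq, coe_eq_iff, coe_eq_iff]
  constructor
  · rintro ⟨⟨m, hm⟩, ⟨n, hn⟩⟩
    exact ⟨(m, n), Prod.ext hm hn⟩
  · rintro ⟨⟨m, n⟩, h⟩
    exact ⟨⟨m, congrArg Prod.fst h⟩, ⟨n, congrArg Prod.snd h⟩⟩

lemma proj_add_lat (z : Plane) (k : ℤ × ℤ) : proj (z + lat k) = proj z :=
  ((proj_eq_iff z _).2 ⟨k, rfl⟩).symm

lemma proj_surjective : Surjective proj := by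
  rintro ⟨x, y⟩
  obtain ⟨a, rfl⟩ := QuotientAddGroup.mk_surjective x
  obtain ⟨b, rfl⟩ := QuotientAddGroup.mk_surjective y
  exact ⟨(a, b), rfl⟩

lemma proj_isOpenQuotientMap : IsOpenQuotientMap proj := by
  have h1 : IsOpenQuotientMap (fun x : ℝ => (x : UnitAddCircle)) :=
    QuotientAddGroup.isOpenQuotientMap_mk
  exact h1.prodMap h1

lemma continuous_of_lift {Y : Type*} [TopologicalSpace Y] (f : Torus → Y)
    (h : Continuous (fun z : Plane => f (proj z))) : Continuous f :=
  proj_isOpenQuotientMap.isQuotientMap.continuous_iff.2 h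

lemma continuous_proj : Continuous proj := proj_isOpenQuotientMap.continuous

/-- a representative in the plane -/
noncomputable def rep (x : Torus) : Plane := surjInv proj_surjective x

lemma proj_rep (x : Torus) : proj (rep x) = x := surjInv_eq proj_surjective x

/-- the map of the torus with a given lift -/
noncomputable def tor (F : Plane → Plane) (x : Torus) : Torus := proj (F (rep x))

lemma tor_proj {F : Plane → Plane} (hF : ∀ z k, F (z + lat k) = F z + lat k) (z : Plane) :
    tor F (proj z) = proj (F z) := by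
  unfold tor
  obtain ⟨k, hk⟩ := (proj_eq_iff z (rep (proj z))).1 (proj_rep _).symm
  rw [hk, hF, proj_add_lat]

lemma tor_continuous {F : Plane → Plane} (hF : ∀ z k, F (z + lat k) = F z + lat k)
    (hc : Continuous F) : Continuous (tor F) := by
  apply continuous_of_lift
  simp_rw [tor_proj hF]
  exact continuous_proj.comp hc

/-- the homeomorphism of the torus with given lifts of it and of its inverse -/
noncomputable def torH (F : Plane ≃ₜ Plane) (hF : ∀ z k, F (z + lat k) = F z + lat k) :
    Torus ≃ₜ Torus :=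
  have hG : ∀ z k, F.symm (z + lat k) = F.symm z + lat k := by
    intro z k
    rw [Homeomorph.symm_apply_eq, hF, Homeomorph.apply_symm_apply]
  { toFun := tor F
    invFun := tor F.symm
    left_inv := by
      intro x
      obtain ⟨z, rfl⟩ := proj_surjective x
      rw [tor_proj hF, tor_proj hG, Homeomorph.symm_apply_apply]
    right_inv := by
      intro x
      obtain ⟨z, rfl⟩ := proj_surjective x
      rw [tor_proj hG, tor_proj hF, Homeomorph.apply_symm_apply]
    continuous_toFun := tor_continuous hF F.continuous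
    continuous_invFun := tor_continuous hG F.symm.continuous }

lemma torH_proj (F : Plane ≃ₜ Plane) (hF : ∀ z k, F (z + lat k) = F z + lat k) (z : Plane) :
    torH F hF (proj z) = proj (F z) := tor_proj hF z

lemma torH_symm_proj (F : Plane ≃ₜ Plane) (hF : ∀ z k, F (z + lat k) = F z + lat k) (z : Plane) :
    (torH F hF).symm (proj z) = proj (F.symm z) := by
  rw [Homeomorph.symm_apply_eq, torH_proj, Homeomorph.apply_symm_apply]

end Pool.Agent.Y318.HN
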