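import Pool.Agent.Y318.HN.Lift

set_option autoImplicit false

open Set Filter Topology MeasureTheory Function
open scoped ContDiff

namespace Pool.Agent.Y318.HN

noncomputable section

/-- `cos 2πx` -/
def A (z : Plane) : ℝ := Real.cos (2 * Real.pi * z.1)
/-- `cos 2πy` -/
def B (z : Plane) : ℝ := Real.cos (2 * Real.pi * z.2)
/-- `sin 2πx` -/
def S (z : Plane) : ℝ := Real.sin (2 * Real.pi * z.1)
/-- `sin 2πy` -/
def T (z : Plane) : ℝ := Real.sin (2 * Real.pi * z.2)

lemma A_abs (z : Plane) : |A z| ≤ 1 := Real.abs_cos_le_one _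
lemma B_abs (z : Plane) : |B z| ≤ 1 := Real.abs_cos_le_one _
lemma S_abs (z : Plane) : |S z| ≤ 1 := Real.abs_sin_le_one _
lemma T_abs (z : Plane) : |T z| ≤ 1 := Real.abs_sin_le_one _
lemma AS (z : Plane) : A z ^ 2 + S z ^ 2 = 1 := Real.cos_sq_add_sin_sq _
lemma BT (z : Plane) : B z ^ 2 + T z ^ 2 = 1 := Real.cos_sq_add_sin_sq _

lemma AB_abs (z : Plane) : |A z * B z| ≤ 1 := by
  rw [abs_mul]
  exact mul_le_one₀ (A_abs z) (abs_nonneg _) (B_abs z)
lemma ST_abs (z : Plane) : |S z * T z| ≤ 1 := by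
  rw [abs_mul]
  exact mul_le_one₀ (S_abs z) (abs_nonneg _) (T_abs z)

/-- denominators -/
def d1 (z : Plane) : ℝ := 1 - A z * B z / 10
/-- denominators -/
def d2 (z : Plane) : ℝ := 1 + A z * B z / 10

lemma d1_ge (z : Plane) : 9 / 10 ≤ d1 z := by
  have := abs_le.1 (AB_abs z)
  unfold d1; linarith
lemma d2_ge (z : Plane) : 9 / 10 ≤ d2 z := by
  have := abs_le.1 (AB_abs z)
  unfold d2; linarith
lemma d1_pos (z : Plane) : 0 < d1 z := by linarith [d1_ge z]
lemma d2_pos (z : Plane) : 0 < d2 z := by linarith [d2_ge z]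

/-- first tangent -/
def g1 (z : Plane) : ℝ := B z * S z / 10 / d1 z
/-- second tangent -/
def g2 (z : Plane) : ℝ := A z * T z / 10 / d2 z

/-- the displacement -/
def P (z : Plane) : Plane := (Real.pi⁻¹ * Real.arctan (g1 z), -(Real.pi⁻¹ * Real.arctan (g2 z)))

/-- the lift of the diffeomorphism -/
def F0 (z : Plane) : Plane := z + P z

lemma A_contDiff : ContDiff ℝ ω A := by unfold A; fun_prop
lemma B_contDiff : ContDiff ℝ ω B := by unfold B; fun_prop
lemma S_contDiff : ContDiff ℝ ω S := by unfold S; fun_prop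
lemma T_contDiff : ContDiff ℝ ω T := by unfold T; fun_prop

lemma d1_contDiff : ContDiff ℝ ω d1 := by
  unfold d1
  exact contDiff_const.sub ((A_contDiff.mul B_contDiff).div_const 10)
lemma d2_contDiff : ContDiff ℝ ω d2 := by
  unfold d2
  exact contDiff_const.add ((A_contDiff.mul B_contDiff).div_const 10)
lemma g1_contDiff : ContDiff ℝ ω g1 := by
  unfold g1
  exact ((B_contDiff.mul S_contDiff).div_const 10).div d1_contDiff (fun z => (d1_pos z).ne')
lemma g2_contDiff : ContDiff ℝ ω g2 := by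
  unfold g2
  exact ((A_contDiff.mul T_contDiff).div_const 10).div d2_contDiff (fun z => (d2_pos z).ne')
lemma P_contDiff : ContDiff ℝ ω P := by
  unfold P
  exact (contDiff_const.mul (Real.contDiff_arctan.comp g1_contDiff)).prodMk
    (contDiff_const.mul (Real.contDiff_arctan.comp g2_contDiff)).neg
lemma F0_contDiff : ContDiff ℝ ω F0 := by
  unfold F0
  exact contDiff_id.add P_contDiff

/-- linear maps of the plane -/
def lin2 (p q r s : ℝ) : Plane →L[ℝ] Plane :=
  (p • ContinuousLinearMap.fst ℝ ℝ ℝ + q • ContinuousLinearMap.snd ℝ ℝ ℝ).prod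
    (r • ContinuousLinearMap.fst ℝ ℝ ℝ + s • ContinuousLinearMap.snd ℝ ℝ ℝ)

lemma lin2_apply (p q r s : ℝ) (u : Plane) :
    lin2 p q r s u = (p * u.1 + q * u.2, r * u.1 + s * u.2) := by
  simp [lin2]

lemma lin2_norm_le {p q r s c : ℝ} (h1 : |p| + |q| ≤ c) (h2 : |r| + |s| ≤ c) :
    ‖lin2 p q r s‖ ≤ c := by
  have hc : 0 ≤ c := by
    have := abs_nonneg p
    have := abs_nonneg q
    linarith
  apply ContinuousLinearMap.opNorm_le_bound _ hc
  intro u
  rw [lin2_apply]
  have key : ∀ p q : ℝ, |p| + |q| ≤ c → |p * u.1 + q * u.2| ≤ c * ‖u‖ := by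
    intro p q h
    have a1 : |u.1| ≤ ‖u‖ := norm_fst_le u
    have a2 : |u.2| ≤ ‖u‖ := norm_snd_le u
    calc |p * u.1 + q * u.2| ≤ |p * u.1| + |q * u.2| := abs_add_le _ _
      _ = |p| * |u.1| + |q| * |u.2| := by rw [abs_mul, abs_mul]
      _ ≤ |p| * ‖u‖ + |q| * ‖u‖ := by gcongr
      _ = (|p| + |q|) * ‖u‖ := by ring
      _ ≤ c * ‖u‖ := by gcongr
  rw [Prod.norm_mk]
  exact max_le (key p q h1) (key r s h2)

lemma A_der (z : Plane) : HasFDerivAt A ((-(2 * Real.pi) * S z) • ContinuousLinearMap.fst ℝ ℝ ℝ) z := by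
  have h : HasFDerivAt (fun z : Plane => 2 * Real.pi * z.1)
      ((2 * Real.pi) • ContinuousLinearMap.fst ℝ ℝ ℝ) z := hasFDerivAt_fst.const_mul _
  refine h.cos.congr_fderiv ?_
  rw [smul_smul]
  congr 1
  unfold S
  ring
lemma B_der (z : Plane) : HasFDerivAt B ((-(2 * Real.pi) * T z) • ContinuousLinearMap.snd ℝ ℝ ℝ) z := by
  have h : HasFDerivAt (fun z : Plane => 2 * Real.pi * z.2)
      ((2 * Real.pi) • ContinuousLinearMap.snd ℝ ℝ ℝ) z := hasFDerivAt_snd.const_mul _
  refine h.cos.congr_fderiv ?_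
  rw [smul_smul]
  congr 1
  unfold T
  ring
lemma S_der (z : Plane) : HasFDerivAt S (((2 * Real.pi) * A z) • ContinuousLinearMap.fst ℝ ℝ ℝ) z := by
  have h : HasFDerivAt (fun z : Plane => 2 * Real.pi * z.1)
      ((2 * Real.pi) • ContinuousLinearMap.fst ℝ ℝ ℝ) z := hasFDerivAt_fst.const_mul _
  refine h.sin.congr_fderiv ?_
  rw [smul_smul]
  congr 1
  unfold A
  ring
lemma T_der (z : Plane) : HasFDerivAt T (((2 * Real.pi) * B z) • ContinuousLinearMap.snd ℝ ℝ ℝ) z := by
  have h : HasFDerivAt (fun z : Plane => 2 * Real.pi * z.2)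
      ((2 * Real.pi) • ContinuousLinearMap.snd ℝ ℝ ℝ) z := hasFDerivAt_snd.const_mul _
  refine h.sin.congr_fderiv ?_
  rw [smul_smul]
  congr 1
  unfold B
  ring

/-- `(1 - 2kc + k²)` for the first map -/
def e1 (z : Plane) : ℝ := d1 z ^ 2 + (B z * S z / 10) ^ 2
/-- the same for the second map -/
def e2 (z : Plane) : ℝ := d2 z ^ 2 + (A z * T z / 10) ^ 2

lemma e1_ge (z : Plane) : 81 / 100 ≤ e1 z := by
  unfold e1
  nlinarith [d1_ge z, sq_nonneg (B z * S z / 10)]
lemma e2_ge (z : Plane) : 81 / 100 ≤ e2 z := by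
  unfold e2
  nlinarith [d2_ge z, sq_nonneg (A z * T z / 10)]
lemma e1_pos (z : Plane) : 0 < e1 z := by linarith [e1_ge z]
lemma e2_pos (z : Plane) : 0 < e2 z := by linarith [e2_ge z]

/-- the derivative of the displacement -/
def DP (z : Plane) : Plane →L[ℝ] Plane :=
  lin2 (B z * (A z - B z / 10) / 5 / e1 z) (-(S z * T z) / 5 / e1 z)
    (S z * T z / 5 / e2 z) (-(A z * (B z + A z / 10)) / 5 / e2 z)

/-- derivative of a function of two variables in terms of the partial derivatives -/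
def row (p q : ℝ) : Plane →L[ℝ] ℝ :=
  p • ContinuousLinearMap.fst ℝ ℝ ℝ + q • ContinuousLinearMap.snd ℝ ℝ ℝ

lemma row_apply (p q : ℝ) (u : Plane) : row p q u = p * u.1 + q * u.2 := by
  simp [row]

lemma lin2_eq (p q r s : ℝ) : lin2 p q r s = (row p q).prod (row r s) := rfl

lemma row_ext {f : Plane → ℝ} {L : Plane →L[ℝ] ℝ} {z : Plane} (h : HasFDerivAt f L z) {p q : ℝ}
    (h' : ∀ u : Plane, L u = p * u.1 + q * u.2) : HasFDerivAt f (row p q) z := by
  refine h.congr_fderiv ?_
  apply ContinuousLinearMap.ext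
  intro u
  rw [h', row_apply]

lemma AB_der (z : Plane) : HasFDerivAt (fun z => A z * B z)
    (row (-(2 * Real.pi) * S z * B z) (-(2 * Real.pi) * T z * A z)) z := by
  refine row_ext ((A_der z).mul (B_der z)) (fun u => ?_)
  simp
  ring

lemma d1_der (z : Plane) : HasFDerivAt d1
    (row ((2 * Real.pi) * S z * B z / 10) ((2 * Real.pi) * T z * A z / 10)) z := by
  have h := ((AB_der z).mul_const (1 / 10 : ℝ)).const_sub 1
  have h2 : HasFDerivAt d1 _ z := h.congr_of_eventuallyEq
    (Eventually.of_forall fun w => by show 1 - A w * B w / 10 = 1 - A w * B w * (1 / 10); ring)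
  refine row_ext h2 (fun u => ?_)
  simp [row_apply]
  ring

lemma d2_der (z : Plane) : HasFDerivAt d2
    (row (-(2 * Real.pi) * S z * B z / 10) (-(2 * Real.pi) * T z * A z / 10)) z := by
  have h := ((AB_der z).mul_const (1 / 10 : ℝ)).const_add 1
  have h2 : HasFDerivAt d2 _ z := h.congr_of_eventuallyEq
    (Eventually.of_forall fun w => by show 1 + A w * B w / 10 = 1 + A w * B w * (1 / 10); ring)
  refine row_ext h2 (fun u => ?_)
  simp [row_apply]
  ring

lemma BS_der (z : Plane) : HasFDerivAt (fun z => B z * S z)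
    (row ((2 * Real.pi) * A z * B z) (-(2 * Real.pi) * T z * S z)) z := by
  refine row_ext ((B_der z).mul (S_der z)) (fun u => ?_)
  simp
  ring

lemma AT_der (z : Plane) : HasFDerivAt (fun z => A z * T z)
    (row (-(2 * Real.pi) * S z * T z) ((2 * Real.pi) * A z * B z)) z := by
  refine row_ext ((A_der z).mul (T_der z)) (fun u => ?_)
  simp
  ring

lemma div_der {f g : Plane → ℝ} {z : Plane} {p q r s : ℝ} (hf : HasFDerivAt f (row p q) z)
    (hg : HasFDerivAt g (row r s) z) (h0 : g z ≠ 0) :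
    HasFDerivAt (fun w => f w / g w)
      (row ((p * g z - f z * r) / g z ^ 2) ((q * g z - f z * s) / g z ^ 2)) z := by
  have hi := hf.mul ((hasDerivAt_inv h0).comp_hasFDerivAt z hg)
  have h2 : HasFDerivAt (fun w => f w / g w) _ z := hi.congr_of_eventuallyEq
    (Eventually.of_forall fun w => by
      show f w / g w = f w * (g w)⁻¹
      rw [div_eq_mul_inv])
  refine row_ext h2 (fun u => ?_)
  simp only [ContinuousLinearMap.smul_apply, ContinuousLinearMap.add_apply, row_apply, smul_eq_mul,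
    comp_apply]
  field_simp
  ring

lemma g1_der (z : Plane) : HasFDerivAt g1
    (row (2 * Real.pi * B z * (A z - B z / 10) / 10 / d1 z ^ 2)
      (-(2 * Real.pi) * (S z * T z) / 10 / d1 z ^ 2)) z := by
  have hd := d1_pos z
  have h := div_der (row_ext ((BS_der z).mul_const (1 / 10 : ℝ))
    (p := (2 * Real.pi) * A z * B z / 10) (q := -(2 * Real.pi) * T z * S z / 10)
    (fun u => by simp [row_apply]; ring)) (d1_der z) hd.ne'
  have h2 : HasFDerivAt g1 _ z := h.congr_of_eventuallyEq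
    (Eventually.of_forall fun w => by
      show B w * S w / 10 / d1 w = B w * S w * (1 / 10) / d1 w
      ring)
  refine row_ext h2 (fun u => ?_)
  rw [row_apply]
  have h1 : d1 z = 1 - A z * B z / 10 := rfl
  have hS : S z ^ 2 = 1 - A z ^ 2 := by have := AS z; linarith
  congr 1
  · congr 1
    congr 1
    rw [h1]
    linear_combination (-(2 * Real.pi) * B z ^ 2 / 100) * hS
  · congr 1
    congr 1
    rw [h1]
    ring

lemma g2_der (z : Plane) : HasFDerivAt g2
    (row (-(2 * Real.pi) * (S z * T z) / 10 / d2 z ^ 2)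
      (2 * Real.pi * A z * (B z + A z / 10) / 10 / d2 z ^ 2)) z := by
  have hd := d2_pos z
  have h := div_der (row_ext ((AT_der z).mul_const (1 / 10 : ℝ))
    (p := -(2 * Real.pi) * S z * T z / 10) (q := (2 * Real.pi) * A z * B z / 10)
    (fun u => by simp [row_apply]; ring)) (d2_der z) hd.ne'
  have h2 : HasFDerivAt g2 _ z := h.congr_of_eventuallyEq
    (Eventually.of_forall fun w => by
      show A w * T w / 10 / d2 w = A w * T w * (1 / 10) / d2 w
      ring)
  refine row_ext h2 (fun u => ?_)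
  rw [row_apply]
  have h1 : d2 z = 1 + A z * B z / 10 := rfl
  have hT : T z ^ 2 = 1 - B z ^ 2 := by have := BT z; linarith
  congr 1
  · congr 1
    congr 1
    rw [h1]
    ring
  · congr 1
    congr 1
    rw [h1]
    linear_combination ((2 * Real.pi) * A z ^ 2 / 100) * hT

lemma arctan_der {g : Plane → ℝ} {z : Plane} {p q : ℝ} (hg : HasFDerivAt g (row p q) z) :
    HasFDerivAt (fun w => Real.pi⁻¹ * Real.arctan (g w))
      (row (Real.pi⁻¹ * p / (1 + g z ^ 2)) (Real.pi⁻¹ * q / (1 + g z ^ 2))) z := by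
  refine row_ext (hg.arctan.const_mul Real.pi⁻¹) (fun u => ?_)
  simp only [ContinuousLinearMap.smul_apply, row_apply, smul_eq_mul]
  have : 0 < 1 + g z ^ 2 := by positivity
  field_simp

lemma P_der (z : Plane) : HasFDerivAt P (DP z) z := by
  have hp := Real.pi_pos
  have h1 := d1_pos z
  have h2 := d2_pos z
  have h3 := e1_pos z
  have h4 := e2_pos z
  have k1 : 1 + g1 z ^ 2 = e1 z / d1 z ^ 2 := by
    unfold g1 e1
    field_simp
  have k2 : 1 + g2 z ^ 2 = e2 z / d2 z ^ 2 := by
    unfold g2 e2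
    field_simp
  have a1 := row_ext (arctan_der (g1_der z)) (p := B z * (A z - B z / 10) / 5 / e1 z)
    (q := -(S z * T z) / 5 / e1 z) (fun u => by
      rw [row_apply, k1]
      field_simp
      ring)
  have a2 := row_ext (arctan_der (g2_der z)).neg (p := S z * T z / 5 / e2 z)
    (q := -(A z * (B z + A z / 10)) / 5 / e2 z) (fun u => by
      simp only [ContinuousLinearMap.neg_apply]
      rw [row_apply, k2]
      field_simp
      ring)
  exact a1.prodMk a2

lemma DP_norm (z : Plane) : ‖DP z‖ ≤ 3 / 5 := by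
  have hA := abs_le.1 (A_abs z)
  have hB := abs_le.1 (B_abs z)
  have hST := ST_abs z
  have h3 := e1_ge z
  have h4 := e2_ge z
  have h3' := e1_pos z
  have h4' := e2_pos z
  apply lin2_norm_le
  · have a1 : |B z * (A z - B z / 10)| ≤ 11 / 10 := by
      rw [abs_mul]
      have : |A z - B z / 10| ≤ 11 / 10 := by rw [abs_le]; constructor <;> linarith
      nlinarith [B_abs z, abs_nonneg (B z), abs_nonneg (A z - B z / 10)]
    rw [abs_div, abs_div, abs_div, abs_div, abs_neg, abs_of_pos h3', abs_of_pos (by norm_num : (0:ℝ) < 5),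
      ← add_div, ← add_div, div_div, div_le_iff₀ (by positivity)]
    linarith
  · have a1 : |-(A z * (B z + A z / 10))| ≤ 11 / 10 := by
      rw [abs_neg, abs_mul]
      have : |B z + A z / 10| ≤ 11 / 10 := by rw [abs_le]; constructor <;> linarith
      nlinarith [A_abs z, abs_nonneg (A z), abs_nonneg (B z + A z / 10)]
    rw [abs_div, abs_div, abs_div, abs_div, abs_of_pos h4', abs_of_pos (by norm_num : (0:ℝ) < 5),
      ← add_div, ← add_div, div_div, div_le_iff₀ (by positivity)]
    linarith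

lemma F0_der (z : Plane) : HasFDerivAt F0 (ContinuousLinearMap.id ℝ Plane + DP z) z :=
  (hasFDerivAt_id z).add (P_der z)

lemma P_lip (z w : Plane) : ‖P z - P w‖ ≤ 3 / 5 * ‖z - w‖ := by
  apply convex_univ.norm_image_sub_le_of_norm_hasFDerivWithin_le
    (fun x _ => (P_der x).hasFDerivWithinAt) (fun x _ => DP_norm x) (mem_univ w) (mem_univ z)

lemma F0_approx : ApproximatesLinearOn F0 ((ContinuousLinearEquiv.refl ℝ Plane : Plane →L[ℝ] Plane))
    univ (3 / 5) := by
  rw [ApproximatesLinearOn]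
  intro x _ y _
  have : F0 x - F0 y - (ContinuousLinearEquiv.refl ℝ Plane : Plane →L[ℝ] Plane) (x - y) = P x - P y := by
    unfold F0
    simp
    abel
  rw [this]
  have h := P_lip x y
  simpa using h

/-- the lift as a homeomorphism of the plane -/
def F0H : Plane ≃ₜ Plane := F0_approx.toHomeomorph F0 (by
  right
  have h : ‖((ContinuousLinearEquiv.refl ℝ Plane).symm : Plane →L[ℝ] Plane)‖₊ = 1 := by
    rw [ContinuousLinearEquiv.refl_symm, ContinuousLinearEquiv.coe_refl]
    exact ContinuousLinearMap.nnnorm_id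
  rw [h, inv_one]
  rw [div_lt_one (by norm_num)]
  norm_num)

lemma F0H_apply (z : Plane) : F0H z = F0 z := rfl

lemma der_inj (z : Plane) : Injective (ContinuousLinearMap.id ℝ Plane + DP z) := by
  rw [injective_iff_map_eq_zero]
  intro u hu
  have h1 : u = - DP z u := by
    have : u + DP z u = 0 := hu
    exact eq_neg_of_add_eq_zero_left this
  have h2 : ‖u‖ ≤ 3 / 5 * ‖u‖ := by
    conv_lhs => rw [h1, norm_neg]
    exact (DP z).le_of_opNorm_le (DP_norm z) u
  have h3 : ‖u‖ ≤ 0 := by linarith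
  exact norm_le_zero_iff.1 h3

/-- the derivative as an equivalence -/
def derE (z : Plane) : Plane ≃L[ℝ] Plane :=
  (LinearEquiv.ofInjectiveEndo (ContinuousLinearMap.id ℝ Plane + DP z : Plane →L[ℝ] Plane).toLinearMap
    (der_inj z)).toContinuousLinearEquiv

lemma derE_coe (z : Plane) : (derE z : Plane →L[ℝ] Plane) = ContinuousLinearMap.id ℝ Plane + DP z := by
  apply ContinuousLinearMap.ext
  intro u
  rfl

lemma G0_contDiff : ContDiff ℝ ω F0H.symm := by
  apply F0H.contDiff_symm (f₀' := derE) _ F0_contDiff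
  intro z
  rw [derE_coe]
  exact F0_der z

lemma A_lat (z : Plane) (k : ℤ × ℤ) : A (z + lat k) = A z := by
  unfold A lat
  rw [Prod.fst_add, mul_add, mul_comm (2 * Real.pi) ((k.1 : ℤ) : ℝ)]
  exact Real.cos_add_int_mul_two_pi _ _
lemma B_lat (z : Plane) (k : ℤ × ℤ) : B (z + lat k) = B z := by
  unfold B lat
  rw [Prod.snd_add, mul_add, mul_comm (2 * Real.pi) ((k.2 : ℤ) : ℝ)]
  exact Real.cos_add_int_mul_two_pi _ _
lemma S_lat (z : Plane) (k : ℤ × ℤ) : S (z + lat k) = S z := by
  unfold S lat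
  rw [Prod.fst_add, mul_add, mul_comm (2 * Real.pi) ((k.1 : ℤ) : ℝ)]
  exact Real.sin_add_int_mul_two_pi _ _
lemma T_lat (z : Plane) (k : ℤ × ℤ) : T (z + lat k) = T z := by
  unfold T lat
  rw [Prod.snd_add, mul_add, mul_comm (2 * Real.pi) ((k.2 : ℤ) : ℝ)]
  exact Real.sin_add_int_mul_two_pi _ _

lemma P_lat (z : Plane) (k : ℤ × ℤ) : P (z + lat k) = P z := by
  unfold P g1 g2 d1 d2
  rw [A_lat, B_lat, S_lat, T_lat]

lemma F0_lat (z : Plane) (k : ℤ × ℤ) : F0H (z + lat k) = F0H z + lat k := by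
  rw [F0H_apply, F0H_apply]
  unfold F0
  rw [P_lat]
  abel

/-- the diffeomorphism of the torus -/
def ft : Torus ≃ₜ Torus := torH F0H F0_lat

lemma ft_proj (z : Plane) : ft (proj z) = proj (F0 z) := torH_proj F0H F0_lat z

theorem ft_diffeo : IsAnalyticDiffeo ft F0 F0H.symm where
  lift := ft_proj
  lift_symm := torH_symm_proj F0H F0_lat
  analytic := F0_contDiff
  analytic_symm := G0_contDiff

end

end Pool.Agent.Y318.HN
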